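import Pool.Agent.Lib.MP_651af7_nt.Am.Defs

/-! The field generated by the blocks of a set of divisors, and its transcendence degree. -/

namespace Pool.Agent.Lib.MP_651af7_nt.Am6

variable (F : Type) {K : Type} [Field F] [Field K] [Algebra F K] {R N q : ℕ}
  (ξ : Fin R × Fin N → K) (d : Fin q → Fin R → ℕ) (T : Finset (Fin q))

/-- The ratios of two coordinates of a block that occurs in a divisor `j ∈ T`. -/
def rt : Set K :=
  {z | ∃ j ∈ T, ∃ b a a', d j b ≠ 0 ∧ z = ξ (b, a) / ξ (b, a')}

/-- The transcendence degree over `F` of the field generated by these ratios. -/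
noncomputable def rk : Cardinal :=
  Algebra.trdeg F (IntermediateField.adjoin F (rt ξ d T))

/-- Any `s` of the divisors meet properly: in each chart any `t ≤ s` of the local equations `φ j`
generate an ideal of height at least `t`. -/
def Idx (u : Fin q → K) (s : ℕ) : Prop :=
  ∀ ε, (∀ b, ξ (b, ε b) ≠ 0) → ∀ φ : Fin q → Am.chart F ξ ε,
    (∀ j, φ j = u j / ∏ b, ξ (b, ε b) ^ d j b) → ∀ T : Finset (Fin q),
      T.card ≤ s → (T.card : ℕ∞) ≤ (Ideal.span (φ '' T)).height

/-- At most `m` of the divisors meet: in each chart more than `m` of the local equations `φ j`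
generate the unit ideal. -/
def Meet (u : Fin q → K) (m : ℕ) : Prop :=
  ∀ ε, (∀ b, ξ (b, ε b) ≠ 0) → ∀ φ : Fin q → Am.chart F ξ ε,
    (∀ j, φ j = u j / ∏ b, ξ (b, ε b) ^ d j b) → ∀ T : Finset (Fin q),
      m < T.card → Ideal.span (φ '' T) = ⊤

end Pool.Agent.Lib.MP_651af7_nt.Am6
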