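import Pool.Agent.Lib.MP_651af7_nt.Am6.Sub

/-! The integral points are not dense. -/

namespace Pool.Agent.Lib.MP_651af7_nt.Am6

open Height MvPolynomial NumberField IntermediateField Ds Am

theorem hc6 {k K β : Type} [Field k] [NumberField k] [Field K] [Algebra k K] {g R N q : ℕ}
    {y : Fin g → K} {ξ : Fin R × Fin N → K} {𝓕 : Filter β} {v : β → K → k} (h : Fc.Sp 𝓕 v)
    {d : Fin q → Fin R → ℕ} {j : Fin q} (hd : ∀ i, IsAlgebraic (adjoin k (rt ξ d {j})) (y i)) :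
    ∃ C : ℝ, 0 ≤ C ∧ ∀ᶠ p in 𝓕, logHeight (fun i => v p (y i)) ≤
      C * (1 + ∑ b, d j b * logHeight fun a => v p (ξ (b, a))) := by
  obtain ⟨f, hf⟩ : ∃ f : Fin R × Fin N × Fin N → K, f = fun s =>
    if d j s.1 = 0 then 1 else ξ (s.1, s.2.1) / ξ (s.1, s.2.2) := ⟨_, rfl⟩
  have h1 : adjoin k (rt ξ d {j}) ≤ adjoin k (Set.range f) :=
    adjoin.mono k _ _ fun _ ⟨i, hi, b, a, a', h0, e⟩ => ⟨(b, a, a'), by
      rw [hf, e]
      exact if_neg (Finset.mem_singleton.1 hi ▸ h0)⟩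
  choose c c0 hc using fun i => Fc.ht_alg h (isAlgebraic_adjoin_iff.1
    ((hd i).ringHom_of_comp_eq (inclusion h1).toRingHom (RingHom.id K) (RingHom.injective _) rfl))
  have h3 : ∀ s : Fin R × Fin N × Fin N, ∀ᶠ p in 𝓕, v p (ξ (s.1, s.2.1) / ξ (s.1, s.2.2)) =
      v p (ξ (s.1, s.2.1)) / v p (ξ (s.1, s.2.2)) := fun s => by
    filter_upwards [h.mul (ξ (s.1, s.2.1)) (ξ (s.1, s.2.2))⁻¹, h.inv (ξ (s.1, s.2.2))] with p p1 p2
    rw [div_eq_mul_inv, p1, p2, div_eq_mul_inv]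
  have c1 : 0 ≤ ∑ s, c s := Finset.sum_nonneg fun s _ => c0 s
  refine ⟨(∑ s, c s) * (1 + N * N), by positivity, ?_⟩
  filter_upwards [Filter.eventually_all.2 hc, Filter.eventually_all.2 h3, h.one] with p p1 p2 p3
  have e3 : ∑ s : Fin R × Fin N × Fin N, logHeight₁ (v p (f s)) ≤
      N * N * ∑ b, d j b * logHeight fun a => v p (ξ (b, a)) := by
    rw [Fintype.sum_prod_type, Finset.mul_sum]
    refine Finset.sum_le_sum fun b _ => (Finset.sum_le_card_nsmul _ _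
      (d j b * logHeight fun a => v p (ξ (b, a))) fun s _ => ?_).trans_eq (by simp)
    simp only [hf]
    split_ifs with h0
    · rw [p3, logHeight₁_one]
      exact mul_nonneg (Nat.cast_nonneg _) (logHeight_nonneg _)
    · rw [p2 (b, s)]
      exact (Av.logHeight₁_div_le (fun a => v p (ξ (b, a))) _ _).trans
        (le_mul_of_one_le_left (logHeight_nonneg _) (Nat.one_le_cast.2 (Nat.pos_of_ne_zero h0)))
  have e5 := (Av.logHeight_le_sum fun i => v p (y i)).trans (Finset.sum_le_sum fun s _ => p1 s)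
  rw [← Finset.sum_mul] at e5
  have e7 : 0 ≤ ∑ b, d j b * logHeight fun a => v p (ξ (b, a)) :=
    Finset.sum_nonneg fun b _ => mul_nonneg (Nat.cast_nonneg _) (logHeight_nonneg _)
  refine e5.trans ?_
  rw [mul_assoc]
  refine mul_le_mul_of_nonneg_left ?_ c1
  have e9 : (0 : ℝ) ≤ N * N := by positivity
  linarith

theorem levin (k : Type) [Field k] [NumberField k] (g R N q l s m : ℕ)
    (J : Ideal (MvPolynomial (Fin g) k)) (K : Type) [Field K] [Algebra k K] (y : Fin g → K)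
    (ξ : Fin R × Fin N → K) (D : Nc.Dn J y) (ξ1 : ∀ b, ∃ a, ξ (b, a) ≠ 0)
    (F : IntermediateField k K)
    (hF : F = adjoin k (Set.range y)) (hK : adjoin F (Set.range ξ) = ⊤)
    (U : Fin q → MvPolynomial (Fin g ⊕ Fin R × Fin N) k)
    (hU : ∀ j, aeval (Sum.elim y ξ) (U j) ≠ 0) (d : Fin q → Fin R → ℕ)
    (hh : ∀ j, aeval (Sum.elim y ξ) (U j) ∈ bm F ξ (d j))
    (hP : Idx F ξ d (fun j => aeval (Sum.elim y ξ) (U j)) s)
    (hQ : Meet F ξ d (fun j => aeval (Sum.elim y ξ) (U j)) m) (s0 : 0 < s) (sm : s ≤ m)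
    (hl : rk F ξ d Finset.univ ≤ l ∨ m ≤ l) (q0 : 0 < q)
    (h1 : 2 * m * l < s * q ∨ 2 * m * l = s * q ∧ ∀ j, 2 ≤ rk F ξ d {j})
    (h2 : ∀ j i, IsAlgebraic (adjoin k (rt ξ d {j})) (y i))
    (h3 : ∀ j, ∃ z ∈ rt ξ d {j}, Transcendental k z) (S : Finset (FinitePlace k)) (B : ℝ) :
    ∃ Θ : MvPolynomial (Fin g ⊕ Fin R × Fin N) k, aeval (Sum.elim y ξ) Θ ≠ 0 ∧
      ∀ (x : Fin g → k) (t : Fin R × Fin N → k),
        (∀ P, aeval (Sum.elim y ξ) P = 0 → eval (Sum.elim x t) P = 0) →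
        (∀ j, ∑ᶠ v ∈ (S : Set (FinitePlace k))ᶜ, Real.log
          ((∏ b, (⨆ a, v (t (b, a))) ^ d j b) / v (eval (Sum.elim x t) (U j))) ≤ B) →
        eval (Sum.elim x t) Θ = 0 := by
  obtain ⟨v, h, hv⟩ := Fc.sp_top (k := k) (hF ▸ hK)
  choose C c0 hC using fun j => hc6 h (h2 j)
  have c1 : 0 ≤ ∑ j, C j := Finset.sum_nonneg fun j _ => c0 j
  obtain ⟨I, ⟨j, hj⟩, -, a0⟩ := main7 k g R N q l s m J K y ξ D ξ1 F hF hK U hU d hh hP hQ s0 sm hl
    q0 h1
  obtain ⟨Θ, c, a1, a2⟩ := a0 0 (2 * (∑ j, C j + 1))⁻¹ (fun h => (h rfl).elim) (by positivity)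
  obtain ⟨_, ⟨j', j1, b, a, a', b1, rfl⟩, b2⟩ := h3 j
  obtain rfl := Finset.mem_singleton.1 j1
  obtain ⟨Θ₁, a3, a4⟩ := hv.and (hC j')
  obtain ⟨C', hC'⟩ := a2 S
  have b3 : ξ (b, a') ≠ 0 := fun e => b2 (by simpa [e] using isAlgebraic_zero)
  refine ⟨Θ * Θ₁ * (X (.inr (b, a')) * ∏ w ∈ (finite_setOfPred_logHeight₁_le k
    (2 * (∑ j, c j * B + C') + 1)).toFinset, (X (.inr (b, a)) - MvPolynomial.C w * X (.inr (b, a')))),
    ?_, fun x t p1 p2 => by_contra fun p3 => ?_⟩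
  · simp only [map_mul, map_prod, map_sub, aeval_X, aeval_C, Sum.elim_inr]
    refine mul_ne_zero (mul_ne_zero a1 a3) (mul_ne_zero b3 (Finset.prod_ne_zero_iff.2
      fun w _ e => b2 ?_))
    rw [(div_eq_iff b3).2 (sub_eq_zero.1 e)]
    exact isAlgebraic_algebraMap w
  simp only [map_mul, map_prod, map_sub, eval_X, eval_C, Sum.elim_inr, mul_eq_zero, not_or,
    Finset.prod_eq_zero_iff, not_exists, not_and] at p3
  obtain ⟨⟨p3, p4⟩, p5, p6⟩ := p3
  refine p6 (t (b, a) / t (b, a')) ((Set.Finite.mem_toFinset _).2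
    ((Av.logHeight₁_div_le (fun a => t (b, a)) _ _).trans ?_)) (by
      rw [div_mul_cancel₀ _ p5, sub_self])
  obtain ⟨⟨e1, e2⟩, e3⟩ := a4 _ p1 p4
  simp only [e1, e2, Sum.elim_inl, Sum.elim_inr] at e3
  have e4 := (hC' x t p1 p3).2.2
  rw [Nat.cast_zero, zero_mul, add_zero] at e4
  have e5 : ∀ j b, 0 ≤ d j b * logHeight fun a => t (b, a) := fun j b =>
    mul_nonneg (Nat.cast_nonneg _) (logHeight_nonneg _)
  have e6 := Finset.single_le_sum (f := fun j => ∑ b, d j b * logHeight fun a => t (b, a))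
    (fun j _ => Finset.sum_nonneg fun b _ => e5 j b) hj
  have e7 := (le_mul_of_one_le_left (logHeight_nonneg fun a => t (b, a))
    (Nat.one_le_cast.2 (Nat.pos_of_ne_zero b1))).trans
    (Finset.single_le_sum (fun b _ => e5 j' b) (Finset.mem_univ b))
  have e8 := Finset.sum_le_sum fun j (_ : j ∈ Finset.univ) =>
    mul_le_mul_of_nonneg_left (p2 j) (Nat.cast_nonneg (α := ℝ) (c j))
  have e9 : (2 * (∑ j, C j + 1))⁻¹ * logHeight x ≤
      (1 + ∑ b, d j' b * logHeight fun a => t (b, a)) / 2 := by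
    rw [inv_mul_le_iff₀ (by positivity), mul_div_assoc', mul_assoc, mul_div_cancel_left₀ _ two_ne_zero]
    exact e3.trans (mul_le_mul_of_nonneg_right ((Finset.single_le_sum (fun j _ => c0 j)
      (Finset.mem_univ j')).trans (le_add_of_nonneg_right zero_le_one))
      (add_nonneg zero_le_one (Finset.sum_nonneg fun b _ => e5 j' b)))
  linarith

end Pool.Agent.Lib.MP_651af7_nt.Am6
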