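import Pool.Agent.Lib.MP_651af7_nt.Am3.Big
import Pool.Agent.Lib.MP_651af7_nt.Am2.Neq
import Pool.Agent.Lib.MP_651af7_nt.Am.Std

/-! The Hilbert function on a set of blocks. -/

namespace Pool.Agent.Lib.MP_651af7_nt.Am6

open Finset Module Am Am3

variable {F K : Type} [Field F] [Field K] [Algebra F K] {R N n : ℕ} {ξ : Fin R × Fin N → K}

theorem low5 {β : Fin n → Fin R} {a a' : Fin n → Fin N}
    (h : AlgebraicIndependent F fun i => ξ (β i, a i) / ξ (β i, a' i)) (m : Fin n → ℕ) :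
    ∏ i, (m i + 1) ≤ finrank F (bm F ξ fun b => ∑ i, m i * (Pi.single (β i) 1 : Fin R → ℕ) b) := by
  classical
  have h0 : ∀ i, ξ (β i, a' i) ≠ 0 := fun i e =>
    h.transcendental i (by simpa [e] using isAlgebraic_zero)
  obtain ⟨P, hP⟩ : ∃ P, P = ∏ i, ξ (β i, a' i) ^ m i := ⟨_, rfl⟩
  have h2 : P ≠ 0 := hP ▸ prod_ne_zero_iff.2 fun i _ => pow_ne_zero _ (h0 i)
  have h3 := (((MvPolynomial.basisMonomials (Fin n) F).linearIndependent.comp
    (fun k : ∀ i, Fin (m i + 1) => Finsupp.equivFunOnFinite.symm fun i => (k i : ℕ))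
    fun k k' e => funext fun i => Fin.ext (congrFun (Equiv.injective _ e) i)).map'
    (MvPolynomial.aeval fun i => ξ (β i, a i) / ξ (β i, a' i)).toLinearMap
    (LinearMap.ker_eq_bot.2 h)).map' (LinearMap.mulRight F P)
    (LinearMap.ker_eq_bot.2 (mul_left_injective₀ h2))
  have := big_fin (F := F) (ξ := ξ) fun b => ∑ i, m i * (Pi.single (β i) 1 : Fin R → ℕ) b
  have h4 : ∀ k : ∀ i, Fin (m i + 1), (∏ i, (ξ (β i, a i) / ξ (β i, a' i)) ^ (k i : ℕ)) * P ∈
      bm F ξ fun b => ∑ i, m i * (Pi.single (β i) 1 : Fin R → ℕ) b := fun k => by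
    rw [hP, ← prod_mul_distrib]
    refine nev_prod _ fun i => ?_
    obtain ⟨l, hl⟩ := Nat.exists_eq_add_of_le (Nat.lt_succ_iff.1 (k i).2)
    have h5 := nev_mul (nev_pow (big_one (F := F) (ξ := ξ) (β i) (a i)) (k i))
      (nev_pow (big_one (F := F) (ξ := ξ) (β i) (a' i)) l)
    simp only [← add_mul, ← hl] at h5
    rwa [div_pow, ← congrArg (ξ (β i, a' i) ^ ·) hl.symm, pow_add, ← mul_assoc,
      div_mul_cancel₀ _ (pow_ne_zero _ (h0 i))]
  have h6 : LinearIndependent F fun k => (⟨_, h4 k⟩ :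
      bm F ξ fun b => ∑ i, m i * (Pi.single (β i) 1 : Fin R → ℕ) b) := by
    refine LinearIndependent.of_comp (Submodule.subtype _) ?_
    simpa [Function.comp_def, MvPolynomial.aeval_monomial, Finsupp.prod_fintype] using h3
  simpa using h6.fintype_card_le_finrank

theorem low6 (ξ1 : ∀ b, ∃ a, ξ (b, a) ≠ 0) {β : Fin n → Fin R} {a a' : Fin n → Fin N}
    (h : AlgebraicIndependent F fun i => ξ (β i, a i) / ξ (β i, a' i)) (m : Fin n → ℕ)
    (Y : Fin R → ℕ) (hY : ∀ b, ∑ i, m i * (Pi.single (β i) 1 : Fin R → ℕ) b ≤ Y b) :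
    ∏ i, (m i + 1) ≤ finrank F (bm F ξ Y) :=
  (low5 h m).trans (inc_le (Inc.of_le ξ1 hY))

theorem hilb6 (ξ1 : ∀ b, ∃ a, ξ (b, a) ≠ 0) (e : Fin R → ℕ)
    (hn : Algebra.trdeg F (IntermediateField.adjoin F
      {z | ∃ b a a', e b ≠ 0 ∧ z = ξ (b, a) / ξ (b, a')}) = n) :
    ∃ (T : Type) (_ : Fintype T) (κ : T → Fin R → ℕ) (D : ℕ), (∀ τ, ∑ b, κ τ b ≤ n) ∧
      Sw κ D fun Y => finrank F (bm F ξ fun b => if e b = 0 then 0 else Y b) := by
  choose ε hε using ξ1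
  generalize hK : IntermediateField.adjoin F
    {z | ∃ b a a', e b ≠ 0 ∧ z = ξ (b, a) / ξ (b, a')} = K' at hn
  obtain ⟨ξ', h'⟩ : ∃ ξ' : Fin R × Fin N → K',
      ∀ s, (ξ' s : K) = if e s.1 = 0 then 1 else ξ s / ξ (s.1, ε s.1) :=
    ⟨fun s => ⟨if e s.1 = 0 then 1 else ξ s / ξ (s.1, ε s.1), by
      split_ifs with h
      · exact one_mem _
      · exact hK ▸ IntermediateField.subset_adjoin _ _ ⟨s.1, s.2, ε s.1, h, rfl⟩⟩, fun _ => rfl⟩
  obtain ⟨T, i, -, κ, D, h1, h2⟩ := hilb (F := F) (ξ := ξ') (fun b => ⟨ε b, fun h => by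
    have := h' (b, ε b)
    rw [h, div_self (hε b), ite_self] at this
    exact zero_ne_one this⟩) hn
  refine ⟨T, i, κ, D, h1, ?_⟩
  convert h2 using 2 with Y
  obtain ⟨L, hL⟩ : ∃ L : K' →ₗ[F] K,
      ∀ z, L z = (∏ b, ξ (b, ε b) ^ (if e b = 0 then 0 else Y b)) * z :=
    ⟨(LinearMap.mulLeft F _).comp K'.val.toLinearMap, fun _ => rfl⟩
  have hi : Function.Injective L := fun x y h => Subtype.ext (mul_left_cancel₀
    (prod_ne_zero_iff.2 fun b _ => pow_ne_zero _ (hε b)) (by rw [← hL, ← hL, h]))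
  have key : ∀ μ : Fin R × Fin N → ℕ, (∀ b, ∑ a, μ (b, a) = Y b) →
      L (∏ s, ξ' s ^ μ s) = ∏ s, ξ s ^ (if e s.1 = 0 then 0 else μ s) := fun μ hμ => by
    rw [hL, IntermediateField.coe_prod, Fintype.prod_prod_type, Fintype.prod_prod_type,
      ← prod_mul_distrib]
    refine prod_congr rfl fun b _ => ?_
    simp only [IntermediateField.coe_pow, h']
    split_ifs
    · simp
    · simp only [div_pow]
      rw [prod_div_distrib, prod_pow_eq_pow_sum, hμ, mul_div_cancel₀ _ (pow_ne_zero _ (hε b))]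
  rw [(Submodule.equivMapOfInjective L hi (bm F ξ' Y)).finrank_eq, bm, bm, Submodule.map_span]
  refine congrArg (fun S : Set K => finrank F (Submodule.span F S)) (Set.ext fun z => ?_)
  constructor
  · rintro ⟨μ, hμ, rfl⟩
    have h3 : ∀ b, ∑ a, (if e b = 0 then if a = ε b then Y b else 0 else μ (b, a)) = Y b := by
      intro b
      have := hμ b
      split_ifs at this ⊢ <;> simp [this]
    refine ⟨_, ⟨fun s => if e s.1 = 0 then if s.2 = ε s.1 then Y s.1 else 0 else μ s, h3, rfl⟩,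
      (key _ h3).trans (prod_congr rfl fun s _ => ?_)⟩
    split_ifs with h
    · have := hμ s.1
      rw [if_pos h, sum_eq_zero_iff] at this
      rw [this s.2 (mem_univ _)]
    · rfl
  · rintro ⟨_, ⟨μ, hμ, rfl⟩, rfl⟩
    refine ⟨_, fun b => ?_, key μ hμ⟩
    split_ifs <;> simp [hμ]

end Pool.Agent.Lib.MP_651af7_nt.Am6
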