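import Pool.Agent.Lib.MP_651af7_nt.Am6.Defs

/-! Independent ratios attached to the divisors. -/

namespace Pool.Agent.Lib.MP_651af7_nt.Am6

open Finset

variable {F K : Type} [Field F] [Field K] [Algebra F K] {R N q n : ℕ}
  {ξ : Fin R × Fin N → K} {d : Fin q → Fin R → ℕ}

variable (F ξ d) in
/-- There are independent ratios, the `i`-th in a block of the divisor `jj i`. -/
def Gd (jj : Fin n → Fin q) : Prop :=
  ∃ (β : Fin n → Fin R) (a a' : Fin n → Fin N), (∀ i, d (jj i) (β i) ≠ 0) ∧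
    AlgebraicIndependent F fun i => ξ (β i, a i) / ξ (β i, a' i)

theorem basis_card {U I : Set K}
    (h : (AlgebraicIndependent.matroid F K).IsBasis I U) :
    Cardinal.mk I = Algebra.trdeg F (IntermediateField.adjoin F U) := by
  refine le_antisymm (AlgebraicIndependent.cardinalMk_le_trdeg
    (x := fun e : I => (⟨e, IntermediateField.subset_adjoin F U (h.subset e.2)⟩ :
      IntermediateField.adjoin F U))
    (AlgebraicIndependent.of_comp (IntermediateField.adjoin F U).val h.indep)) ?_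
  obtain ⟨B, hB⟩ := exists_isTranscendenceBasis F (IntermediateField.adjoin F U)
  have k1 := hB.1.map' (f := (IntermediateField.adjoin F U).val) Subtype.val_injective
  rw [← hB.cardinalMk_eq_trdeg, ← Cardinal.mk_range_eq _ k1.injective]
  refine Matroid.Indep.cardinalMk_le_isBasis (AlgebraicIndependent.matroid_indep_iff.2
    k1.to_subtype_range) h.isBasis_closure_right ?_
  rintro _ ⟨x, rfl⟩
  rw [AlgebraicIndependent.matroid_closure_eq, SetLike.mem_coe, Subalgebra.mem_algebraicClosure,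
    ← IntermediateField.isAlgebraic_adjoin_iff]
  exact isAlgebraic_algebraMap x.1

theorem greedy0 {E : Type} (M : Matroid E) (hE : M.E = Set.univ) (S : Fin q → Set E)
    (h0 : ∀ I, M.Indep I → I ⊆ ⋃ j, S j → I.Finite)
    (h : ∀ T : Finset (Fin q), T.Nonempty → T ≠ univ → ∀ I : Finset E,
      M.IsBasis I (⋃ j ∈ T, S j) → n * #T < q * #I)
    {a : Fin q → ℝ} (ha : ∀ j, 0 < a j) (j₀ : Fin q) (T : Finset (Fin q)) :
    ∀ t, 0 < t → (∀ j ∈ T, t ≤ a j) → (T ≠ univ ∨ ∃ j ∈ T, a j = t) →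
      ∃ (I : Finset E) (l : E → Fin q), M.IsBasis I (⋃ j ∈ T, S j) ∧
        (∀ e ∈ I, l e ∈ T ∧ e ∈ S (l e)) ∧ ∀ m, (m ≤ t ∨ ∃ j ∈ T, m ≤ a j) →
          (∏ j ∈ T, a j / t) ^ n * (m / t) ≤ (∏ e ∈ I, a (l e) / t) ^ q := by
  classical
  induction T using Finset.induction_on_min_value a with
  | empty =>
    refine fun t t0 _ _ => ⟨∅, fun _ => j₀, by simp, by simp, fun m hm => ?_⟩
    simpa [div_le_one t0] using hm
  | insert j s hj hs ih =>
    intro t t0 t1 t2
    obtain ⟨I, l, i1, i2, i3⟩ := ih (a j) (ha j) hs (.inl fun e => hj (e ▸ mem_univ j))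
    obtain ⟨J, j1, j2⟩ := i1.indep.subset_isBasis_of_subset (X := ⋃ i ∈ insert j s, S i)
      (i1.subset.trans (Set.biUnion_subset_biUnion_left (by simp))) (by simp [hE])
    lift J to Finset E using h0 J j1.indep (j1.subset.trans (Set.iUnion₂_subset fun i _ =>
      Set.subset_iUnion S i))
    have j3 : ∀ e, ∃ i, e ∈ J → (i ∈ insert j s ∧ e ∈ S i) ∧ (e ∈ I → i = l e) := fun e => by
      by_cases k : e ∈ I
      · exact ⟨l e, fun _ => ⟨⟨mem_insert_of_mem (i2 e k).1, (i2 e k).2⟩, fun _ => rfl⟩⟩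
      by_cases k' : e ∈ J
      · obtain ⟨i, k1, k2⟩ := Set.mem_iUnion₂.1 (j1.subset k')
        exact ⟨i, fun _ => ⟨⟨k1, k2⟩, fun k3 => (k k3).elim⟩⟩
      · exact ⟨j, fun k3 => (k' k3).elim⟩
    choose l' l1 using j3
    refine ⟨J, l', j1, fun e he => (l1 e he).1, fun m hm => ?_⟩
    have k0 := t1 j (mem_insert_self j s)
    have k1 : ∀ i ∈ insert j s, 1 ≤ a i / a j := fun i hi => (one_le_div (ha j)).2 (by
      rcases mem_insert.1 hi with rfl | hi
      exacts [le_rfl, hs i hi])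
    have k2 := i3 m (by
      rcases hm with hm | ⟨i, k, hm⟩
      · exact .inl (hm.trans k0)
      · rcases mem_insert.1 k with rfl | k
        exacts [.inl hm, .inr ⟨i, k, hm⟩])
    have k3 : ∏ e ∈ I, a (l e) / a j ≤ ∏ e ∈ J, a (l' e) / a j := by
      exact (prod_congr rfl fun e he => by rw [(l1 e (j2 he)).2 he]).trans_le
        (prod_le_prod_of_subset_of_one_le (f := fun e => a (l' e) / a j) j2
          (fun e _ => (div_pos (ha _) (ha j)).le) fun e he _ => k1 _ (l1 e he).1.1)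
    have k4 : (a j / t) ^ (n * #(insert j s) + 1) ≤ (a j / t) ^ (q * #J) := by
      rcases t2 with k | ⟨i, k, rfl⟩
      · exact pow_le_pow_right₀ ((one_le_div t0).2 k0) (h _ (insert_nonempty j s) k J j1)
      · rw [le_antisymm k0 ((one_le_div (ha j)).1 (k1 i k)), div_self (ha j).ne', one_pow, one_pow]
    have k5 : ∀ x, x / t = x / a j * (a j / t) := fun x => by
      rw [div_mul_div_cancel₀ (ha j).ne']
    have k6 := mul_le_mul (k2.trans (pow_le_pow_left₀ (prod_nonneg fun e _ =>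
      (div_pos (ha _) (ha j)).le) k3 q)) k4 (pow_pos (div_pos (ha j) t0) _).le
      (pow_nonneg (prod_nonneg fun e _ => (div_pos (ha _) (ha j)).le) _)
    rw [prod_congr rfl fun i _ => k5 (a i), prod_congr rfl fun e _ => k5 (a (l' e)), k5 m,
      prod_mul_distrib, prod_mul_distrib, prod_const, prod_const, prod_insert hj,
      div_self (ha j).ne', one_mul]
    refine le_trans (le_of_eq ?_) (k6.trans (le_of_eq ?_)) <;> ring

theorem greedy1 (S : Fin q → Set K)
    (hn : Algebra.trdeg F (IntermediateField.adjoin F (⋃ j, S j)) = n)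
    (h : ∀ T : Finset (Fin q), T.Nonempty → T ≠ univ → ((n * #T : ℕ) : Cardinal) <
      q * Algebra.trdeg F (IntermediateField.adjoin F (⋃ j ∈ T, S j)))
    {a : Fin q → ℝ} (ha : ∀ j, 0 < a j) (hq : 0 < q) :
    ∃ (e : Fin n → K) (l : Fin n → Fin q), AlgebraicIndependent F e ∧ (∀ i, e i ∈ S (l i)) ∧
      ∀ i j, (∏ x, a x) ^ n * a i ≤ a j * (∏ x, a (l x)) ^ q := by
  obtain ⟨m, -, hm⟩ := exists_min_image univ a ⟨⟨0, hq⟩, mem_univ _⟩
  obtain ⟨I, l, i1, i2, i3⟩ := greedy0 (AlgebraicIndependent.matroid F K) rfl (n := n) S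
    (fun I h1 h2 => by
      obtain ⟨J, j1, j2⟩ := h1.subset_isBasis_of_subset h2 (Set.subset_univ _)
      exact (Cardinal.lt_aleph0_iff_set_finite.1
        (((basis_card j1).trans hn).trans_lt Cardinal.natCast_lt_aleph0)).subset j2)
    (fun T t1 t2 I hI => by
      have k := h T t1 t2
      rw [← basis_card hI, coe_sort_coe, Cardinal.mk_coe_finset] at k
      exact_mod_cast k) ha m univ (a m) (ha m) hm (.inr ⟨m, mem_univ m, rfl⟩)
  have k1 := basis_card i1
  rw [show ⋃ j ∈ univ, S j = ⋃ j, S j by simp, hn, coe_sort_coe, Cardinal.mk_coe_finset, Nat.cast_inj] at k1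
  subst k1
  refine ⟨fun i => I.equivFin.symm i, fun i => l (I.equivFin.symm i),
    AlgebraicIndependent.comp i1.indep _ I.equivFin.symm.injective,
    fun i => (i2 _ (I.equivFin.symm i).2).2, fun i j => ?_⟩
  have k2 := i3 (a i) (.inr ⟨i, mem_univ i, le_rfl⟩)
  rw [prod_div_distrib, prod_div_distrib, prod_const, prod_const, card_univ, Fintype.card_fin,
    div_pow, div_pow, div_mul_div_comm, ← pow_mul, ← pow_mul, mul_comm #I, div_le_div_iff₀
      (mul_pos (pow_pos (ha m) _) (ha m)) (pow_pos (ha m) _), mul_comm _ (a m), ← mul_assoc] at k2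
  rw [I.equivFin.symm.prod_comp fun e => a (l e), prod_coe_sort I fun e => a (l e), mul_comm (a j)]
  exact (le_of_mul_le_mul_right k2 (pow_pos (ha m) _)).trans (mul_le_mul_of_nonneg_left
    (hm j (mem_univ j)) (pow_nonneg (prod_nonneg fun e _ => (ha _).le) _))

theorem rk_basis {X : Set K} {B : Finset K} (h : (AlgebraicIndependent.matroid F K).IsBasis B X) :
    Algebra.trdeg F (IntermediateField.adjoin F X) = B.card := by
  rw [← basis_card h, coe_sort_coe, Cardinal.mk_coe_finset]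

theorem rt_fin (T : Finset (Fin q)) : (rt ξ d T).Finite :=
  (Set.finite_range fun p : Fin R × Fin N × Fin N => ξ (p.1, p.2.1) / ξ (p.1, p.2.2)).subset
    fun _ ⟨_, _, b, a, a', _, e⟩ => ⟨(b, a, a'), e.symm⟩

theorem rt_mono {T T' : Finset (Fin q)} (h : T ⊆ T') : rt ξ d T ⊆ rt ξ d T' :=
  fun _ ⟨j, k, e⟩ => ⟨j, h k, e⟩

theorem rt_eq (T : Finset (Fin q)) : ⋃ j ∈ T, rt ξ d {j} = rt ξ d T :=
  Set.ext fun z => by simp [rt]

theorem rk_nat (T : Finset (Fin q)) : ∃ r : ℕ, rk F ξ d T = r := by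
  obtain ⟨B, hB⟩ := (AlgebraicIndependent.matroid F K).exists_isBasis (rt ξ d T) (Set.subset_univ _)
  lift B to Finset K using (rt_fin T).subset hB.subset
  exact ⟨_, rk_basis hB⟩

theorem rk_mono {T T' : Finset (Fin q)} (h : T ⊆ T') : rk F ξ d T ≤ rk F ξ d T' :=
  trdeg_le_of_injective (IntermediateField.inclusion (IntermediateField.adjoin.mono F _ _
    (rt_mono h))) (IntermediateField.inclusion_injective _)

theorem gd_of {e : Fin n → K} {l : Fin n → Fin q} (h : AlgebraicIndependent F e)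
    (hl : ∀ i, e i ∈ rt ξ d {l i}) : Gd F ξ d l := by
  choose j j1 β a a' b1 b2 using hl
  obtain rfl := funext b2
  exact ⟨β, a, a', fun i => mem_singleton.1 (j1 i) ▸ b1 i, h⟩

theorem gd_ext (hn : rk F ξ d univ = n) (T : Finset (Fin q)) : ∃ (B B' : Finset K)
    (e : Fin n ≃ B') (jj : Fin n → Fin q), B ⊆ B' ∧ rk F ξ d T = #B ∧
      Gd F ξ d jj ∧ ∀ i, (e i : K) ∈ B → jj i ∈ T := by
  obtain ⟨B, hB⟩ := (AlgebraicIndependent.matroid F K).exists_isBasis (rt ξ d T) (Set.subset_univ _)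
  obtain ⟨B', h1, h2⟩ := hB.indep.subset_isBasis_of_subset
    (hB.subset.trans (rt_mono (subset_univ T))) (Set.subset_univ _)
  lift B to Finset K using (rt_fin T).subset hB.subset
  lift B' to Finset K using (rt_fin univ).subset h1.subset
  obtain rfl : n = #B' := Nat.cast_injective (hn.symm.trans (rk_basis h1))
  have h3 : ∀ z : B', ∃ j, z.1 ∈ rt ξ d {j} ∧ (z.1 ∈ B → j ∈ T) := fun z => by
    by_cases k : z.1 ∈ B
    · obtain ⟨j, k1, k2⟩ := hB.subset k
      exact ⟨j, ⟨j, mem_singleton_self j, k2⟩, fun _ => k1⟩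
    · obtain ⟨j, -, k2⟩ := h1.subset z.2
      exact ⟨j, ⟨j, mem_singleton_self j, k2⟩, fun k' => (k k').elim⟩
  choose l l1 l2 using h3
  exact ⟨B, B', B'.equivFin.symm, fun i => l (B'.equivFin.symm i), h2, rk_basis hB,
    gd_of (AlgebraicIndependent.comp h1.indep _ B'.equivFin.symm.injective) fun i => l1 _,
    fun i => l2 _⟩

theorem gd_ex (hn : rk F ξ d univ = n) : ∃ jj : Fin n → Fin q, Gd F ξ d jj := by
  obtain ⟨_, _, _, jj, -, -, h, -⟩ := gd_ext hn ∅
  exact ⟨jj, h⟩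

theorem gd_two (hn : rk F ξ d univ = n) {j : Fin q} (h2 : 2 ≤ rk F ξ d {j}) :
    ∃ jj : Fin n → Fin q, Gd F ξ d jj ∧ ∃ i i', i ≠ i' ∧ jj i = j ∧ jj i' = j := by
  obtain ⟨B, B', e, jj, h1, h3, h4, h5⟩ := gd_ext hn {j}
  obtain ⟨z, z1, z', z2, k⟩ := one_lt_card.1 (show 1 < #B by
    rw [h3] at h2
    exact_mod_cast h2)
  exact ⟨jj, h4, e.symm ⟨z, h1 z1⟩, e.symm ⟨z', h1 z2⟩, fun k' => k (by simpa using k'),
    mem_singleton.1 (h5 _ (by simpa using z1)), mem_singleton.1 (h5 _ (by simpa using z2))⟩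

theorem gd_greedy (hq : 0 < q) (hn : rk F ξ d univ = n) (n0 : 0 < n)
    (hs : ∀ T : Finset (Fin q), T.Nonempty → rk F ξ d T < n →
      (n * T.card : Cardinal) < q * rk F ξ d T) (t : Fin q → ℝ) :
    ∃ jj : Fin n → Fin q, Gd F ξ d jj ∧
      ∀ j₀ j₁, n * ∑ j, t j + t j₁ ≤ q * ∑ i, t (jj i) + t j₀ := by
  obtain ⟨e, l, e1, e2, e3⟩ := greedy1 (F := F) (n := n) (fun j => rt ξ d {j})
    (by rwa [rk, ← rt_eq, show ⋃ j ∈ univ, rt ξ d {j} = ⋃ j, rt ξ d {j} by simp] at hn)
    (fun I i1 i2 => by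
      rw [rt_eq, Nat.cast_mul]
      rcases lt_or_ge (rk F ξ d I) n with k1 | k1
      · exact hs I i1 k1
      · refine lt_of_lt_of_le ?_ (mul_le_mul_right k1 _)
        have k2 := card_lt_card (ssubset_univ_iff.2 i2)
        rw [card_univ, Fintype.card_fin] at k2
        exact_mod_cast (Nat.mul_lt_mul_of_pos_left k2 n0).trans_eq (mul_comm _ _))
    (a := fun j => Real.exp (t j)) (fun j => Real.exp_pos _) hq
  refine ⟨l, gd_of e1 e2, fun j₀ j₁ => ?_⟩
  have k := e3 j₁ j₀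
  simp only [← Real.exp_sum, ← Real.exp_nat_mul, ← Real.exp_add, Real.exp_le_exp] at k
  linarith

end Pool.Agent.Lib.MP_651af7_nt.Am6
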