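import Pool.Agent.Lib.MP_651af7_nt.Am5.Nev5
import Pool.Agent.Lib.MP_651af7_nt.Am6.Defs

/-! The filtration of Ru and Vojta along the divisors of largest weighted value. -/

namespace Pool.Agent.Lib.MP_651af7_nt.Am6

open Module Fc Am

variable {F K : Type} [Field F] [Field K] [Algebra F K] {R N q : ℕ} {ξ : Fin R × Fin N → K}

theorem top7 {Γ Q : Type} [LinearOrderedCommGroupWithZero Γ] [Fintype Q] {x : Q → Γ}
    (hx : ∀ j, x j ≤ 1) {s m : ℕ} (sm : s ≤ m) (h : ∀ A : Finset Q, (∀ j ∈ A, x j < 1) → A.card ≤ m) :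
    ∃ B : Finset Q, B.card ≤ s ∧ (∏ j ∈ B, x j) ^ m ≤ (∏ j, x j) ^ s := by
  classical
  have k : ∀ A : Finset Q, A.card ≤ s ∨
      ∃ B ⊆ A, B.card = s ∧ (∏ j ∈ B, x j) ^ A.card ≤ (∏ j ∈ A, x j) ^ s := fun A => by
    induction A using Finset.induction_on_max_value x with
    | empty => exact .inl (Nat.zero_le s)
    | insert j A hj hA ih =>
      rw [Finset.card_insert_of_notMem hj, Finset.prod_insert hj]
      refine (lt_or_ge A.card s).imp_right fun k => ?_
      obtain ⟨B, b1, b2, b3⟩ := ih.elim (fun k' => ⟨A, le_rfl, k'.antisymm k,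
        (congrArg _ (k'.antisymm k)).le⟩) id
      refine ⟨B, b1.trans (Finset.subset_insert j A), b2, ?_⟩
      rw [pow_succ', mul_pow]
      exact mul_le_mul' (b2 ▸ Finset.prod_le_pow_card _ _ _ fun i hi => hA i (b1 hi)) b3
  have k1 := h {j | x j < 1} fun j hj => (Finset.mem_filter.1 hj).2
  rw [← Finset.prod_subset (Finset.subset_univ {j | x j < 1}) fun j _ hj =>
    (hx j).antisymm (le_of_not_gt fun e => hj (Finset.mem_filter.2 ⟨Finset.mem_univ j, e⟩))]
  rcases k {j | x j < 1} with k | ⟨B, -, b2, b3⟩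
  · exact ⟨_, k, pow_le_pow_right_of_le_one' (Finset.prod_le_one' fun j _ => hx j) sm⟩
  · exact ⟨B, b2.le, (pow_le_pow_right_of_le_one' (Finset.prod_le_one' fun j _ => hx j) k1).trans b3⟩

theorem nev7 [Infinite F] (ξ1 : ∀ b, ∃ a, ξ (b, a) ≠ 0) {u : Fin q → K} {d : Fin q → Fin R → ℕ}
    (hu : ∀ j, u j ∈ bm F ξ (d j)) (hu0 : ∀ j, u j ≠ 0) {s μ : ℕ} (s0 : 0 < s) (sm : s ≤ μ)
    (hP : Idx F ξ d u s) (hQ : Meet F ξ d u μ) {Y : Fin R → ℕ}
    {a M : Fin q → ℕ} {Z : Fin q → ℕ → ℕ} (hle : ∀ j b, d j b ≤ Y b)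
    (hM : ∀ j m b, (Z j m + 1) * d j b ≤ Y b) (hc : ∀ j, (μ * a j * finrank F (bm F ξ Y) : ℝ) ≤
      s * ∑ m ∈ Finset.range (M j), ((finrank F (bm F ξ fun b => Y b - Z j m * d j b) : ℝ) -
        (m + 1 - Z j m : ℕ) * ((finrank F (bm F ξ fun b => Y b - Z j m * d j b) : ℝ) -
          finrank F (bm F ξ fun b => Y b - (Z j m + 1) * d j b)))) (L : ℕ) :
    NevB F (mn (Y := Y) ξ) (fun j => pw ξ (u j) fun b => Y b - d j b) (fun _ => 1)
      (fun j => L * a j) ((L + 1) * 1) := by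
  classical
  choose u' v1 v2 v3 using fun j => mo_gen (hu j) (hu0 j)
  obtain ⟨r, α, a1, a2, a3⟩ := mon_basis (F := F) (f := mn (Y := Y) ξ) 1
  obtain ⟨T, hT⟩ : ∃ T : Fin r → K, ∀ m, ∏ i, mn (Y := Y) ξ i ^ α m i = T m := ⟨_, fun _ => rfl⟩
  have hr0 : finrank F (mon F (mn (Y := Y) ξ) 1) = r := by
    rw [← a3, finrank_span_eq_card a2, Fintype.card_fin]
  have h1 : ∃ i, mn (Y := Y) ξ i ≠ 0 := by
    choose ε hε using ξ1
    obtain ⟨μ, hμ⟩ := nev_one (ξ := ξ) ε Y
    exact ⟨μ, hμ ▸ Finset.prod_ne_zero_iff.2 fun b _ => pow_ne_zero _ (hε b)⟩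
  refine ⟨1, r, α, one_pos, hr0 ▸ mon_pos h1 1, a1, a2, fun O e c o1 o2 o3 => ?_⟩
  rw [nev_mon] at a3 hr0
  simp only [hT] at a2 a3 ⊢
  have h2 : ∀ b, ∃ i, ξ (b, i) ≠ 0 ∧ ∀ i', ξ (b, i') / ξ (b, i) ∈ O := fun b => by
    obtain ⟨i0, h0⟩ := ξ1 b
    obtain ⟨i, -, hi⟩ := Finset.exists_max_image Finset.univ (fun i => O.valuation (ξ (b, i)))
      ⟨i0, Finset.mem_univ _⟩
    have h3 : 0 < O.valuation (ξ (b, i)) :=
      (zero_lt_iff.2 ((map_ne_zero _).2 h0)).trans_le (hi i0 (Finset.mem_univ _))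
    refine ⟨i, (map_ne_zero _).1 h3.ne', fun i' => ?_⟩
    rw [← O.valuation_le_one_iff, map_div₀, div_le_one₀ h3]
    exact hi i' (Finset.mem_univ _)
  choose ε e1 e2 using h2
  obtain ⟨P, hP'⟩ : ∃ P : (Fin R → ℕ) → K, ∀ A, ∏ b, ξ (b, ε b) ^ A b = P A := ⟨_, fun _ => rfl⟩
  have p0 : ∀ A, P A ≠ 0 := fun A =>
    hP' A ▸ Finset.prod_ne_zero_iff.2 fun b _ => pow_ne_zero _ (e1 b)
  have p1 : ∀ (Y A : Fin R → ℕ) (m : ℕ), (∀ b, m * A b ≤ Y b) →
      P Y = P A ^ m * P fun b => Y b - m * A b := fun Y A m h => by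
    rw [← hP', ← hP', ← hP', ← Finset.prod_pow, ← Finset.prod_mul_distrib]
    refine Finset.prod_congr rfl fun b _ => ?_
    rw [← pow_mul, ← pow_add, mul_comm (A b), Nat.add_sub_cancel' (h b)]
  have p2 : ∀ {A : Fin R → ℕ} {z : K}, z ∈ bm F ξ A → z / P A ∈ chart F ξ ε := fun h =>
    hP' _ ▸ nev_div h ε
  let Λ := Fintype.linearCombination F T
  have l1 : LinearMap.range Λ = bm F ξ Y := by
    rw [← a3, Fintype.range_linearCombination]
  let ψ : (Fin r → F) →ₗ[F] chart F ξ ε :=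
    ((LinearMap.mulRight F (P Y)⁻¹).comp Λ).codRestrict (chart F ξ ε).toSubmodule fun x =>
      by simpa [div_eq_mul_inv] using p2 (l1 ▸ LinearMap.mem_range_self Λ x)
  have l2 : ∀ x, (ψ x : K) = Λ x / P Y := fun x => (div_eq_mul_inv _ _).symm
  let φ : Fin q → chart F ξ ε := fun j => ⟨_, p2 (hu j)⟩
  have l3 : ∀ j, (φ j : K) = u j / P (d j) := fun j => rfl
  have hO : ∀ z : chart F ξ ε, O.valuation z ≤ 1 := fun z => by
    refine (O.valuation_le_one_iff _).2 (Algebra.adjoin_induction ?_ o1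
      (fun _ _ _ _ => add_mem) (fun _ _ _ _ => mul_mem) z.2)
    rintro _ ⟨s, rfl⟩
    exact e2 s.1 s.2
  have hm : ∀ j m b, Z j m * d j b ≤ Y b := fun j m b =>
    (Nat.mul_le_mul_right _ (Nat.le_succ _)).trans (hM j m b)
  let V : Fin q → ℕ → Submodule F K := fun j m =>
    (mw F ξ (u' j / u j) (fun b => Y b - Z j m * d j b) (m + 1 - Z j m)).map
      (LinearMap.mulLeft F (u j ^ Z j m))
  have g7 : ∀ j, O.valuation (φ j) ≠ 0 := fun j =>
    (map_ne_zero _).2 (div_ne_zero (hu0 j) (p0 _))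
  obtain ⟨E, c1, c2⟩ := top7 (x := fun j => O.valuation (φ j) ^ (L * a j))
    (fun j => pow_le_one' (hO _) _) sm fun A hA => le_of_not_gt fun k =>
      (Ideal.comap_isPrime ((chart F ξ ε).val.toRingHom.codRestrict O fun z =>
        (O.valuation_le_one_iff _).1 (hO z)) (IsLocalRing.maximalIdeal O)).ne_top
        (top_le_iff.1 ((hQ ε e1 φ (fun j => by rw [hP']) A k).ge.trans (Ideal.span_le.2 (by
          rintro _ ⟨j, hj, rfl⟩
          exact (O.valuation_lt_one_iff _).2 (lt_of_not_ge fun h =>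
            (hA j hj).not_ge (one_le_pow_of_one_le' h _))))))
  obtain ⟨B, w, ρ, b1, b2, b0, b3, b4⟩ := nev2_disc (fun j : E => O.valuation (φ j))
    (fun j => hO _) (fun j => g7 j) (fun j => μ * a j) L
  have : Algebra.FiniteType F (chart F ξ ε) := (Subalgebra.fg_iff_finiteType _).1
    (Subalgebra.fg_def.2 ⟨_, Set.finite_range _, rfl⟩)
  obtain ⟨G, n, g1, g2, g3⟩ := cJ_basis (φ := fun j : E => φ j) (fun A => by
      have k := hP ε e1 φ (fun j => by rw [hP']) (A.map (.subtype _))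
      rw [Finset.card_map, Finset.coe_map, ← Set.image_comp] at k
      exact k (A.card_le_univ.trans ((Fintype.card_coe E).trans_le c1))) ψ
    (fun j m => if m < M j then (V j m).comap Λ else ⊥) (fun j m x hx => by
      split_ifs at hx with h
      · obtain ⟨y, k1, k2⟩ := Submodule.mem_map.1 (Submodule.mem_comap.1 hx)
        obtain ⟨s, hs⟩ : ∃ s, Z j m + (m + 1 - Z j m) = m + 1 + s :=
          Nat.exists_eq_add_of_le (by omega)
        refine ⟨⟨_, p2 (v1 j)⟩, φ j ^ s * ⟨_, p2 (mem_mw.1 k1 _ le_rfl)⟩, m + 1 - Z j m,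
          Subtype.ext ?_, v3 j ε e1 _ _ (by rw [hP']) (by rw [hP'])⟩
        rw [← mul_assoc, ← pow_add, ← hs]
        simp only [MulMemClass.coe_mul, SubmonoidClass.coe_pow, l2, l3, ← k2,
          LinearMap.mulLeft_apply, p1 Y _ _ (hm j m), div_pow, pow_add]
        have := p0 (d j)
        have := hu0 j
        have := p0 fun b => Y b - Z j m * d j b
        field_simp
      · rw [(Submodule.mem_bot _).1 hx, map_zero]
        exact ⟨1, 0, 0, by simp, by rw [Ideal.span_pair_comm, Ideal.span_insert, Ideal.span_singleton_one,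
          top_sup_eq, Ideal.height_top]; exact le_top⟩) (∑ j, M j) w
  have g4 : ∀ l, O.valuation (ψ (G l)) ^ B ≤ ρ ^ n l := fun l => by
    obtain ⟨π, rfl⟩ := O.valuation_surjective ρ
    have k : ∀ (z : K) (m : ℕ), z ^ B / π ^ m ∈ O ↔ O.valuation z ^ B ≤ O.valuation π ^ m :=
      fun z m => by
        rw [← O.valuation_le_one_iff, map_div₀, map_pow, map_pow,
          div_le_one₀ (pow_pos (zero_lt_iff.2 b0) _)]
    exact (k _ _).1 (cI_val (chart F ξ ε).val.toRingHom O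
      (fun z => (O.valuation_le_one_iff _).1 (hO z)) ((map_ne_zero _).1 b0)
      ((O.valuation_le_one_iff _).1 b2) b1 (fun i _ => (k _ _).2 (b3 i)) (g2 l))
  have g5 : (∑ j : E, w j * (μ * a j)) * r ≤ (∑ l, n l) * s := by
    refine le_trans ?_ (Nat.mul_le_mul_right s g3)
    rw [Finset.sum_mul, Finset.sum_mul]
    refine Finset.sum_le_sum fun ⟨j, hj⟩ _ => ?_
    rw [mul_assoc, mul_assoc (w _), mul_comm _ s]
    refine Nat.mul_le_mul_left _ (le_trans ?_ (Nat.mul_le_mul_left s (Finset.sum_le_sum_of_subset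
      (Finset.range_mono (Finset.single_le_sum (fun _ _ => Nat.zero_le _) (Finset.mem_univ j))))))
    rw [← Nat.cast_le (α := ℝ), Nat.cast_mul, Nat.cast_mul, Nat.cast_mul, Nat.cast_sum]
    refine (hr0 ▸ hc j).trans (mul_le_mul_of_nonneg_left (Finset.sum_le_sum fun m h => ?_)
      s.cast_nonneg)
    have k : V j m ≤ LinearMap.range Λ := by
      rintro _ ⟨y, k1, rfl⟩
      have k2 := nev_mul (nev_pow (hu j) (Z j m)) (mw_le _ _ _ k1)
      simpa only [Nat.add_sub_cancel' (hm j m _), l1, LinearMap.mulLeft_apply] using k2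
    have k3 := mo_dim (Y := fun b => Y b - Z j m * d j b) (hu j) (hu0 j) (v1 j) (v2 j)
      (fun b => Nat.le_sub_of_add_le' (add_one_mul (Z j m) (d j b) ▸ hM j m b)) (m + 1 - Z j m)
    rw [show (fun b => Y b - Z j m * d j b - d j b) = fun b => Y b - (Z j m + 1) * d j b from
      funext fun b => by rw [Nat.sub_sub, add_one_mul]] at k3
    rw [if_pos (Finset.mem_range.1 h)]
    refine k3.trans (Nat.cast_le.2 ?_)
    rw [← mo_map (pow_ne_zero (Z j m) (hu0 j))]
    change finrank F (V j m) ≤ _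
    conv_lhs => rw [← Submodule.map_comap_eq_self k]
    exact Submodule.finrank_map_le _ _
  have g6 : O.valuation (∏ l, (ψ (G l) : K)) ^ ((L + 1) * 1) ≤
      (∏ j, O.valuation (φ j) ^ (L * a j)) ^ r := by
    refine (pow_le_pow_iff_left₀ zero_le zero_le s0.ne').1 ?_
    rw [← pow_mul, mul_assoc, one_mul, ← pow_mul _ r, mul_comm r, pow_mul _ s]
    refine le_trans ?_ (pow_le_pow_left' c2 r)
    rw [← Finset.prod_pow, ← Finset.prod_coe_sort E]
    simp only [← pow_mul _ (L * _), mul_assoc L, mul_comm (a _) μ]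
    refine (pow_le_pow_iff_left₀ zero_le zero_le b1).1 ?_
    rw [← pow_mul, mul_comm _ B, pow_mul, ← pow_mul _ r, mul_comm _ B, pow_mul _ B r]
    refine le_trans ?_ (pow_le_pow_left' b4 _)
    rw [map_prod, ← Finset.prod_pow]
    refine (pow_le_pow_left' (Finset.prod_le_prod' fun l _ => g4 l) _).trans ?_
    rw [Finset.prod_pow_eq_pow_sum, ← pow_mul, ← pow_mul]
    refine pow_le_pow_right_of_le_one' b2 ?_
    rw [mul_assoc, mul_left_comm (∑ i, n i)]
    exact Nat.mul_le_mul_left _ g5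
  refine ⟨G, g1, (O.valuation_le_one_iff _).1 ?_⟩
  have g8 : O.valuation (mn ξ e) = O.valuation (P Y) := by
    obtain ⟨μ, hμ⟩ := nev_one (ξ := ξ) ε Y
    refine nev_val O o2.1 (p0 _) ((O.valuation_le_one_iff _).1 (hO ⟨_, p2 (nev_mn e)⟩)) ?_
    rw [← hP', ← hμ]
    exact o2.2 μ
  have g9 : ∀ j, O.valuation (pw ξ (u j) (fun b => Y b - d j b) (c j)) =
      O.valuation (u j * P fun b => Y b - d j b) := fun j => by
    refine nev_val O (o3 j).1 (mul_ne_zero (hu0 j) (p0 _)) ?_ ?_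
    · rw [pw, mul_div_mul_left _ _ (hu0 j), ← hP', ← Finset.prod_div_distrib]
      exact prod_mem fun b _ => div_pow (ξ _) (ξ (b, ε b)) _ ▸ pow_mem (e2 b _) _
    · have k := (o3 j).2 (finFunctionFinEquiv ε)
      have k1 : pw ξ (u j) (fun b => Y b - d j b) (finFunctionFinEquiv ε) =
          u j * P fun b => Y b - d j b := by rw [pw, Equiv.symm_apply_apply, hP']
      exact k1 ▸ k
  have g10 : ∀ j, O.valuation (P Y) / O.valuation (u j * P fun b => Y b - d j b) =
      (O.valuation (φ j : K))⁻¹ := fun j => by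
    have k := p1 Y (d j) 1 fun b => by rw [one_mul]; exact hle j b
    simp only [pow_one, one_mul] at k
    rw [← map_div₀, ← map_inv₀, l3, inv_div, k, mul_div_mul_right _ _ (p0 _)]
  simp only [pow_one, mul_one, map_mul (O.valuation) (_ ^ _), map_pow, map_prod, map_div₀, g8, g9,
    g10, inv_pow, Finset.prod_inv_distrib]
  rw [mul_inv_le_iff₀ (zero_lt_iff.2 (Finset.prod_ne_zero_iff.2 fun j _ => pow_ne_zero _ (g7 j))),
    one_mul]
  rw [← Finset.prod_pow, map_prod] at g6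
  simpa only [← pow_mul, mul_one, l2, Λ, Fintype.linearCombination_apply, map_div₀] using g6

end Pool.Agent.Lib.MP_651af7_nt.Am6
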