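import Pool.Agent.Lib.MP_651af7_nt.Am5.Num5

/-! A lower bound for the volume polynomial. -/

namespace Pool.Agent.Lib.MP_651af7_nt.Am6

open Finset Am Am2 Am3

variable {R n : ℕ} {T : Type} [Fintype T]

theorem vol6_box {h : (Fin R → ℕ) → ℕ} {β : Fin n → Fin R}
    (hβ : ∀ (m : Fin n → ℕ) (Y : Fin R → ℕ),
      (∀ b, ∑ i, m i * (Pi.single (β i) 1 : Fin R → ℕ) b ≤ Y b) → ∏ i, (m i + 1) ≤ h Y)
    (Y : Fin R → ℕ) : ∏ i, Y (β i) ≤ n ^ n * h Y := by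
  have h1 := hβ (fun i => Y (β i) / n) Y fun b => by
    refine le_trans (sum_le_card_nsmul _ _ (Y b / n) fun i _ => ?_) ?_
    · by_cases e : b = β i
      · rw [e, Pi.single_eq_same, mul_one]
      · rw [Pi.single_eq_of_ne e, mul_zero]
        exact Nat.zero_le _
    · rw [card_univ, Fintype.card_fin, smul_eq_mul]
      exact Nat.mul_div_le _ _
  calc ∏ i, Y (β i) ≤ ∏ i : Fin n, n * (Y (β i) / n + 1) :=
        prod_le_prod' fun i _ => (Nat.lt_mul_div_succ _ i.pos).le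
    _ = n ^ n * ∏ i, (Y (β i) / n + 1) := by
        rw [prod_mul_distrib, prod_const, card_univ, Fintype.card_fin]
    _ ≤ _ := Nat.mul_le_mul_left _ h1

theorem vol6 (κ : T → Fin R → ℕ) {D : ℕ} (hκ : ∀ τ, ∑ b, κ τ b ≤ n)
    [Fintype {τ // ∑ b, κ τ b = n}] {h : (Fin R → ℕ) → ℕ} (hh : Sw κ D h) {β : Fin n → Fin R}
    (hβ : ∀ (m : Fin n → ℕ) (Y : Fin R → ℕ),
      (∀ b, ∑ i, m i * (Pi.single (β i) 1 : Fin R → ℕ) b ≤ Y b) → ∏ i, (m i + 1) ≤ h Y)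
    {z : Fin R → ℝ} (hz : ∀ b, 0 ≤ z b) :
    ∏ i, z (β i) ≤ (n : ℝ) ^ n * Hh (fun τ : {τ // ∑ b, κ τ b = n} =>
      ∏ b, ((κ τ b).factorial : ℝ)⁻¹) (fun τ => κ τ) z := by
  obtain ⟨P, hP⟩ : ∃ P : (Fin R → ℝ) → ℝ, P = Hh (fun τ : {τ // ∑ b, κ τ b = n} =>
    ∏ b, ((κ τ b).factorial : ℝ)⁻¹) (fun τ => κ τ) := ⟨_, rfl⟩
  have c1 : Continuous P := hP ▸ Hh_cont _ _
  have c2 : ∀ (s : ℝ) (x : Fin R → ℝ), P (fun b => s * x b) = s ^ n * P x := fun s x =>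
    hP ▸ Hh_smul _ (fun τ => τ.2) s x
  have h1 : ∀ v : Fin R → ℕ, (∀ b, 0 < v b) →
      ∏ i, (v (β i) : ℝ) ≤ (n : ℝ) ^ n * P fun b => v b := fun v hv => by
    rw [hP]
    refine ge_of_tendsto ((num_lim κ hκ hh hv).const_mul ((n : ℝ) ^ n)) ?_
    filter_upwards [Filter.eventually_gt_atTop 0] with L hL
    have h2 : ((∏ i, L * v (β i) : ℕ) : ℝ) ≤ (n ^ n * h (fun b => L * v b) : ℕ) :=
      Nat.cast_le.2 (vol6_box hβ fun b => L * v b)
    rw [prod_mul_distrib, prod_const, card_univ, Fintype.card_fin] at h2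
    push_cast at h2
    rw [← mul_div_assoc, le_div_iff₀ (by positivity)]
    linarith
  have h2 : ∀ x : Fin R → ℝ, (∀ b, 0 < x b) → ∏ i, x (β i) ≤ (n : ℝ) ^ n * P x := fun x hx => by
    by_contra hc
    have c3 : IsOpen {y : Fin R → ℝ | (n : ℝ) ^ n * P y < ∏ i, y (β i)} :=
      isOpen_lt (by fun_prop) (by fun_prop)
    obtain ⟨s, v, s0, v1, v2⟩ := int_pt (p := x) (Filter.inter_mem (c3.mem_nhds (not_le.1 hc))
      (Filter.eventually_all.2 fun b =>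
        ContinuousAt.eventually_lt continuousAt_const (continuousAt_apply b _) (hx b)))
    have w1 : ∀ b, 0 < v b := fun b => by exact_mod_cast (mul_pos_iff_of_pos_left s0).1 (v2 b)
    have w2 : ∀ b, (((v b).toNat : ℕ) : ℝ) = v b := fun b => by
      exact_mod_cast Int.toNat_of_nonneg (w1 b).le
    have w3 := h1 (fun b => (v b).toNat) fun b => Int.pos_iff_toNat_pos.1 (w1 b)
    simp only [w2] at w3
    have w4 : (n : ℝ) ^ n * P (fun b => s * v b) < ∏ i, s * (v (β i) : ℝ) := v1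
    rw [c2, prod_mul_distrib, prod_const, card_univ, Fintype.card_fin, mul_left_comm] at w4
    exact w4.not_ge (mul_le_mul_of_nonneg_left w3 (pow_pos s0 n).le)
  have c4 : IsClosed {η : ℝ | ∏ i, (z (β i) + η) ≤ (n : ℝ) ^ n * P fun b => z b + η} :=
    isClosed_le (by fun_prop) (by fun_prop)
  have h3 := (c4.closure_subset_iff (s := Set.Ioi 0)).2
    (fun η hη => h2 (fun b => z b + η) fun b => add_pos_of_nonneg_of_pos (hz b) hη)
    (show (0 : ℝ) ∈ closure (Set.Ioi 0) by simp)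
  rw [← hP]
  simpa using h3

end Pool.Agent.Lib.MP_651af7_nt.Am6
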