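import Pool.Agent.Lib.MP_651af7_nt.Am6.Real
import Pool.Agent.Lib.MP_651af7_nt.Am6.Vol

/-! The choice of the multidegree for divisors that need not be big. -/

namespace Pool.Agent.Lib.MP_651af7_nt.Am6

open Finset Am Am2 Am3 Am5

variable {R q n : ℕ} {T : Type} [Fintype T]

theorem int6 {c : T → ℝ} {κ : T → Fin R → ℕ} (hc : ∀ τ, 0 < c τ) (hκ : ∀ τ, ∑ b, κ τ b = n)
    {d : Fin q → Fin R → ℕ} (hq : 0 < q) {s m : ℕ} (s0 : 0 < s) (sm : s ≤ m)
    (g0 : ∃ jj : Fin n → Fin q, Lo c κ (fun j b => (d j b : ℝ)) jj) (g1 : 0 < n → ∀ t : Fin q → ℝ,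
      ∃ jj : Fin n → Fin q, Lo c κ (fun j b => (d j b : ℝ)) jj ∧
        ∀ j₀ j₁, n * ∑ j, t j + t j₁ ≤ q * ∑ i, t (jj i) + t j₀)
    (g2 : 2 * m * n < s * q ∨ 2 * m * n = s * q ∧ ∀ j, ∃ jj : Fin n → Fin q,
      Lo c κ (fun j b => (d j b : ℝ)) jj ∧ ∃ i i', i ≠ i' ∧ jj i = j ∧ jj i' = j)
    (K : ℝ) : ∃ (r X η : ℕ) (θ : Fin q → ℕ), 0 < r ∧ 0 < η ∧ (∀ j, 0 < θ j) ∧
      ∀ (P : Fin q → ℝ → ℝ), (∀ j s, P j s = Hh c κ fun b =>
        ∑ i, (2 * r * θ i * d i b : ℝ) + η - s * θ j * d j b) → ∀ j,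
      m * (2 * r * θ j + K * η) * P j 0 < s * θ j * (r * (P j 1 - r * (P j 0 - P j 1) / 2) +
        X * P j (r + 1) - X ^ 2 * (P j r - P j (r + 1)) / 2) := by
  obtain ⟨r, X, θ, r0, θ0, h⟩ := real6 (d := fun j b => (d j b : ℝ)) hc hκ
    (fun j b => Nat.cast_nonneg _) hq s0 sm g0 g1 g2
  obtain ⟨P, hP⟩ : ∃ P : (Option (Fin q) → ℝ) → Fin q → ℝ → ℝ, ∀ p j s, P p j s = Hh c κ fun b =>
      ∑ i, 2 * r * p (some i) * d i b + p none - s * p (some j) * d j b := ⟨_, fun _ _ _ => rfl⟩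
  have c1 : ∀ j s, Continuous fun p => P p j s := fun j s => by
    simp only [hP]
    exact (Hh_cont c κ).comp (by fun_prop)
  have c2 : IsOpen {p : Option (Fin q) → ℝ | ∀ j, m * (2 * r * p (some j) + K * p none) * P p j 0 <
      s * p (some j) * (r * (P p j 1 - r * (P p j 0 - P p j 1) / 2) + X * P p j (r + 1) -
        X ^ 2 * (P p j r - P p j (r + 1)) / 2)} := by
    rw [Set.ofPred_forall]
    exact isOpen_iInter_of_finite fun j => isOpen_lt (by fun_prop) (by fun_prop)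
  have c3 : Continuous fun η : ℝ => fun o : Option (Fin q) => o.elim η θ :=
    continuous_pi fun o => by rcases o <;> simp only [Option.elim] <;> fun_prop
  obtain ⟨η, e1, e2⟩ := (((c3.continuousAt (x := 0)).eventually (c2.mem_nhds fun j => by
    have := mul_lt_mul_of_pos_left (h (P fun o => o.elim 0 θ) (fun j s => by simp [hP]) j)
      (θ0 j)
    simp only [Option.elim_some, Option.elim_none]
    linarith)).filter_mono (nhdsWithin_le_nhds (s := Set.Ioi 0)) |>.and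
      self_mem_nhdsWithin).exists
  obtain ⟨σ, v, s0, v1, v2⟩ := int_pt (p := fun o : Option (Fin q) => o.elim η θ)
    (Filter.inter_mem (c2.mem_nhds e1) (Filter.eventually_all.2 fun o =>
      ContinuousAt.eventually_lt continuousAt_const (continuousAt_apply o _)
        (show (0 : ℝ) < o.elim η θ by rcases o with _ | j; exacts [e2, θ0 j])))
  have w1 : ∀ o, 0 < v o := fun o => by exact_mod_cast (mul_pos_iff_of_pos_left s0).1 (v2 o)
  have w2 : ∀ o, (((v o).toNat : ℕ) : ℝ) = v o := fun o => by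
    exact_mod_cast Int.toNat_of_nonneg (w1 o).le
  refine ⟨r, X, (v none).toNat, fun j => (v (some j)).toNat, r0, Int.pos_iff_toNat_pos.1 (w1 _),
    fun j => Int.pos_iff_toNat_pos.1 (w1 _), fun P' hP' j => ?_⟩
  have w3 : ∀ t, P (fun o => σ * v o) j t = σ ^ n * P' j t := fun t => by
    rw [hP, hP', ← Hh_smul c hκ]
    refine congrArg _ (funext fun b => ?_)
    simp only [w2, mul_sub, mul_add, mul_sum]
    rw [sum_congr rfl fun i _ => show 2 * r * (σ * v (some i)) * d i b =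
      σ * (2 * r * v (some i) * d i b) by ring]
    ring
  have w4 := v1 j
  simp only [w3] at w4
  rw [w2, w2]
  refine lt_of_mul_lt_mul_left ?_ (mul_pos s0 (pow_pos s0 n)).le
  linarith

theorem num6 (κ : T → Fin R → ℕ) {D : ℕ} (hκ : ∀ τ, ∑ b, κ τ b ≤ n)
    {h : (Fin R → ℕ) → ℕ} (hh : Sw κ D h) (hm : ∀ A B, (∀ b, A b ≤ B b) → h A ≤ h B)
    {d : Fin q → Fin R → ℕ} (hq : 0 < q) {Gd : (Fin n → Fin q) → Prop}
    (hG : ∀ jj, Gd jj → ∃ β : Fin n → Fin R, (∀ i, d (jj i) (β i) ≠ 0) ∧ ∀ (m : Fin n → ℕ)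
      (Y : Fin R → ℕ), (∀ b, ∑ i, m i * (Pi.single (β i) 1 : Fin R → ℕ) b ≤ Y b) →
        ∏ i, (m i + 1) ≤ h Y) (u0 : ∃ jj, Gd jj) (u1 : 0 < n → ∀ t : Fin q → ℝ,
      ∃ jj, Gd jj ∧ ∀ j₀ j₁, n * ∑ j, t j + t j₁ ≤ q * ∑ i, t (jj i) + t j₀)
    {s μ : ℕ} (s0 : 0 < s) (sm : s ≤ μ) (u2 : 2 * μ * n < s * q ∨ 2 * μ * n = s * q ∧
      ∀ j, ∃ jj, Gd jj ∧ ∃ i i', i ≠ i' ∧ jj i = j ∧ jj i' = j) (K : ℕ) :
    ∃ (Y : Fin R → ℕ) (a M : Fin q → ℕ) (B : Fin q → ℕ → ℕ) (G G' : ℕ),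
      (∀ j b, d j b ≤ Y b) ∧ (∀ j m b, (B j m + 1) * d j b ≤ Y b) ∧
      (∀ j, (μ * a j * h Y : ℝ) ≤ s * ∑ m ∈ range (M j), ((h fun b => Y b - B j m * d j b : ℝ) -
        (m + 1 - B j m : ℕ) * ((h fun b => Y b - B j m * d j b : ℝ) -
          h fun b => Y b - (B j m + 1) * d j b))) ∧
      0 < G ∧ K * G' ≤ G ∧ ∀ b, Y b + G * ∑ j, d j b ≤ ∑ j, a j * d j b + G' := by
  classical
  have hc : ∀ τ : {τ // ∑ b, κ τ b = n}, 0 < ∏ b, ((κ τ b).factorial : ℝ)⁻¹ := fun τ =>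
    prod_pos fun b _ => by positivity
  have hL : ∀ jj, Gd jj → Lo (fun τ : {τ // ∑ b, κ τ b = n} => ∏ b, ((κ τ b).factorial : ℝ)⁻¹)
      (fun τ => κ τ) (fun j b => (d j b : ℝ)) jj := fun jj k a ha => by
    obtain ⟨β, k1, k2⟩ := hG jj k
    have k3 : ∀ j b, 0 ≤ a j * d j b := fun j b => mul_nonneg (ha j).le (Nat.cast_nonneg _)
    exact (prod_le_prod (fun i _ => (ha _).le) fun i _ => (le_mul_of_one_le_right (ha _).le
      (Nat.one_le_cast.2 (Nat.pos_of_ne_zero (k1 i)))).trans (single_le_sum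
        (f := fun j => a j * d j (β i)) (fun j _ => k3 j _) (mem_univ _))).trans
      (vol6 κ hκ hh k2 (z := fun b => ∑ j, a j * d j b) fun b => sum_nonneg fun j _ => k3 j b)
  obtain ⟨r, X, η, θ, r0, η0, θ0, o⟩ := int6 (κ := fun τ : {τ // ∑ b, κ τ b = n} => κ τ) (d := d) hc
    (fun τ => τ.2) hq s0 sm (u0.imp hL) (fun n0 t => (u1 n0 t).imp fun jj k => ⟨hL jj k.1, k.2⟩)
    (u2.imp_right (And.imp_right fun k j => (k j).imp fun jj k => ⟨hL jj k.1, k.2⟩)) (K + 1)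
  obtain ⟨P, hP⟩ : ∃ P : Fin q → ℝ → ℝ, ∀ j s, P j s = Hh
      (fun τ : {τ // ∑ b, κ τ b = n} => ∏ b, ((κ τ b).factorial : ℝ)⁻¹) (fun τ => κ τ) fun b =>
      ∑ i, (2 * r * θ i * d i b : ℝ) + η - s * θ j * d j b := ⟨_, fun _ _ => rfl⟩
  replace o := o P hP
  obtain ⟨x, hx⟩ : ∃ x : Fin R → ℕ, ∀ b, x b = ∑ i, 2 * r * θ i * d i b + η := ⟨_, fun _ => rfl⟩
  have x1 : ∀ j s, s ≤ r + 1 → ∀ b, s * θ j * d j b < x b := fun j s hs b => by
    have k1 := single_le_sum (f := fun i => 2 * r * θ i * d i b) (fun _ _ => Nat.zero_le _)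
      (mem_univ j)
    have k2 : s * θ j * d j b ≤ 2 * r * θ j * d j b :=
      Nat.mul_le_mul_right _ (Nat.mul_le_mul_right _ (by omega))
    rw [hx]
    omega
  let g : Fin q → ℕ → ℕ → ℕ := fun j L m => h fun b => L * x b - m * d j b
  have g1 : ∀ j L, Antitone (g j L) := fun j L m m' e => hm _ _ fun b =>
    Nat.sub_le_sub_left (Nat.mul_le_mul_right _ e) _
  have g2 : ∀ j (s : ℕ), s ≤ r + 1 → Filter.Tendsto (fun L : ℕ => (g j L (L * (s * θ j)) : ℝ) / L ^ n)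
      Filter.atTop (nhds (P j s)) := fun j s hs => by
    have := num_lim κ hκ hh (z := fun b => x b - s * θ j * d j b) fun b => Nat.sub_pos_of_lt (x1 j s hs b)
    simp only [Nat.mul_sub, ← mul_assoc _ (s * θ j)] at this
    simp only [Nat.cast_sub (x1 j s hs _).le] at this
    rw [hP]
    simpa only [g, hx, Nat.cast_add, Nat.cast_sum, Nat.cast_mul, Nat.cast_ofNat, Hh] using this
  have g3 : ∀ j, ∀ᶠ L : ℕ in Filter.atTop, μ * (2 * r * θ j + (K + 1) * η) *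
      (g j L (L * (0 * θ j)) / L ^ n) < s * (
      r * θ j * (g j L (L * (1 * θ j)) / L ^ n) - r * (g j L (L * (0 * θ j)) / L ^ n -
        g j L (L * (1 * θ j)) / L ^ n) * (r * θ j + (L : ℝ)⁻¹) / 2 +
      (X * θ j * (g j L (L * ((r + 1) * θ j)) / L ^ n) - X * (g j L (L * (r * θ j)) / L ^ n -
        g j L (L * ((r + 1) * θ j)) / L ^ n) * (X * θ j + (L : ℝ)⁻¹) / 2)) := fun j => by
    have t0 := tendsto_inv_atTop_nhds_zero_nat (𝕜 := ℝ)
    have t1 := g2 j 0 (by omega)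
    have t2 := g2 j 1 (by omega)
    have t3 := g2 j r (by omega)
    have t4 := g2 j (r + 1) le_rfl
    refine Filter.Tendsto.eventually_lt (t1.const_mul _) ((((t2.const_mul _).sub
      ((((t1.sub t2).const_mul _).mul (t0.const_add _)).div_const _)).add ((t4.const_mul _).sub
      ((((t3.sub t4).const_mul _).mul (t0.const_add _)).div_const _))).const_mul _) ?_
    have := o j
    push_cast
    linarith
  obtain ⟨L, l1, l0⟩ := ((Filter.eventually_all.2 g3).and (Filter.eventually_gt_atTop 0)).exists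
  have L0 : (0 : ℝ) < L := by exact_mod_cast l0
  choose M₁ m1 m2 using fun j => mo_sum (g1 j L) 0 (L * θ j) (L * (r * θ j)) (mul_pos l0 (θ0 j))
  choose M₂ m3 m4 using fun j => mo_sum (g1 j L) (L * (r * θ j)) (L * θ j) (L * (X * θ j))
    (mul_pos l0 (θ0 j))
  have x2 : ∀ j m, m < L * (r * θ j) + L * θ j → ∀ b, (m + 1) * d j b ≤ L * x b := fun j m e b =>
    (Nat.mul_le_mul_right _ e).trans (by
      rw [← mul_add, ← add_one_mul, mul_assoc]
      exact Nat.mul_le_mul_left _ (x1 j _ le_rfl b).le)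
  refine ⟨fun b => L * x b, fun j => L * (2 * r * θ j) + (K + 1) * (L * η),
    fun j => L * (r * θ j) + L * (X * θ j), fun j m => if m < L * (r * θ j) then M₁ j else M₂ j,
    (K + 1) * (L * η), L * η, fun j b => ?_, fun j m b => x2 j _ ?_ b, fun j => ?_,
    by positivity, Nat.mul_le_mul_right _ K.le_succ, fun b => ?_⟩
  · simpa using x2 j 0 (by have := mul_pos l0 (θ0 j); omega) b
  · have := m1 j
    have := m3 j
    beta_reduce
    split_ifs <;> omega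
  · beta_reduce
    rw [sum_range_add, sum_congr rfl fun m hm => by rw [if_pos (mem_range.1 hm)],
      sum_congr (s₁ := range (L * (X * θ j))) rfl fun m _ => by rw [if_neg (by omega)]]
    have k1 := add_le_add (m2 j) (m4 j)
    simp only [zero_add] at k1
    refine le_trans ?_ (mul_le_mul_of_nonneg_left k1 s.cast_nonneg)
    have k2 := mul_le_mul_of_nonneg_left (l1 j).le (mul_pos L0 (pow_pos L0 n)).le
    have k3 : (0 : ℝ) < θ j := by exact_mod_cast θ0 j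
    have k4 : h (fun b => L * x b) = g j L 0 := by simp [g]
    rw [k4, ← mul_add, ← add_one_mul]
    simp only [zero_mul, mul_zero, one_mul] at k2
    push_cast
    refine le_trans (le_of_eq ?_) (k2.trans (le_of_eq ?_)) <;> field_simp
  · simp only [hx, add_mul _ ((K + 1) * (L * η)), sum_add_distrib, mul_add, mul_sum, mul_assoc L]
    omega

end Pool.Agent.Lib.MP_651af7_nt.Am6
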