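import Pool.Agent.Lib.MP_651af7_nt.Am5.Main7
import Pool.Agent.Lib.MP_651af7_nt.Am6.Mat
import Pool.Agent.Lib.MP_651af7_nt.Am6.Low
import Pool.Agent.Lib.MP_651af7_nt.Am6.Nev7
import Pool.Agent.Lib.MP_651af7_nt.Am6.Num

/-! Integral points off semiample divisors that need not be big, under the slope condition. -/

namespace Pool.Agent.Lib.MP_651af7_nt.Am6

open Height MvPolynomial NumberField IntermediateField Ds Am

theorem main6_num {L W s H δ Y I m D C ε : ℝ} (hL : L = 4 * s + 2 * W) (s0 : 0 ≤ s) (w0 : 0 ≤ W)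
    (e1 : ε ≤ 1) (y0 : 0 ≤ Y) (k3 : Y ≤ s * δ) (k4 : 2 * Y + δ ≤ 2 * D)
    (k6 : L * I ≤ (L + 1 + ε) * Y + ε * H + C) (k7 : I + m = D) : W * δ ≤ L * m + ε * H + C := by
  have e2 := mul_le_mul_of_nonneg_left k4 (show 0 ≤ L by rw [hL]; positivity)
  have e3 := mul_le_mul_of_nonneg_right e1 y0
  subst hL k7
  linarith

theorem rt_univ {K : Type} [Field K] {R N q : ℕ} (ξ : Fin R × Fin N → K) (d : Fin q → Fin R → ℕ) :
    rt ξ d Finset.univ = {z | ∃ b a a', ∑ j, d j b ≠ 0 ∧ z = ξ (b, a) / ξ (b, a')} :=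
  Set.ext fun _ => ⟨fun ⟨j, k, b, a, a', h, e⟩ =>
    ⟨b, a, a', fun k' => h (Finset.sum_eq_zero_iff.1 k' j k), e⟩, fun ⟨b, a, a', h, e⟩ =>
    (Finset.exists_ne_zero_of_sum_ne_zero h).elim fun j k => ⟨j, k.1, b, a, a', k.2, e⟩⟩

theorem main6 (k : Type) [Field k] [NumberField k] (g R N q n s μ : ℕ)
    (J : Ideal (MvPolynomial (Fin g) k)) (K : Type) [Field K] [Algebra k K] (y : Fin g → K)
    (ξ : Fin R × Fin N → K) (D : Nc.Dn J y) (ξ1 : ∀ b, ∃ a, ξ (b, a) ≠ 0)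
    (F : IntermediateField k K)
    (hF : F = adjoin k (Set.range y)) (hK : adjoin F (Set.range ξ) = ⊤)
    (U : Fin q → MvPolynomial (Fin g ⊕ Fin R × Fin N) k)
    (hU : ∀ j, aeval (Sum.elim y ξ) (U j) ≠ 0) (d : Fin q → Fin R → ℕ)
    (hh : ∀ j, aeval (Sum.elim y ξ) (U j) ∈ bm F ξ (d j))
    (hP : Idx F ξ d (fun j => aeval (Sum.elim y ξ) (U j)) s)
    (hQ : Meet F ξ d (fun j => aeval (Sum.elim y ξ) (U j)) μ) (s0 : 0 < s) (sm : s ≤ μ)
    (hn : rk F ξ d Finset.univ = n) (q0 : 0 < q)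
    (h1 : 2 * μ * n < s * q ∨ 2 * μ * n = s * q ∧ ∀ j, 2 ≤ rk F ξ d {j})
    (hs : ∀ T : Finset (Fin q), T.Nonempty → rk F ξ d T < n →
      (n * T.card : Cardinal) < q * rk F ξ d T) (e : ℕ) (ε : ℝ)
    (he : e ≠ 0 → Algebra.IsAlgebraic (adjoin k (rt ξ d Finset.univ)) K) (hε : 0 < ε) :
    ∃ (Θ : MvPolynomial (Fin g ⊕ Fin R × Fin N) k) (c : Fin q → ℕ),
      aeval (Sum.elim y ξ) Θ ≠ 0 ∧ ∀ S : Finset (FinitePlace k), ∃ C : ℝ,
        ∀ (x : Fin g → k) (t : Fin R × Fin N → k),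
        (∀ P, aeval (Sum.elim y ξ) P = 0 → eval (Sum.elim x t) P = 0) →
        eval (Sum.elim x t) Θ ≠ 0 → (∀ j, eval (Sum.elim x t) (U j) ≠ 0) ∧
        (∀ b, (fun a => t (b, a)) ≠ 0) ∧
        ∑ j, ∑ b, d j b * logHeight (fun a => t (b, a)) +
            e * (logHeight x + ∑ b, logHeight fun a => t (b, a)) ≤
          ∑ j, c j * ∑ᶠ v ∈ (S : Set (FinitePlace k))ᶜ, Real.log
            ((∏ b, (⨆ a, v (t (b, a))) ^ d j b) / v (eval (Sum.elim x t) (U j))) +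
            ε * logHeight x + C := by
  subst hF
  obtain ⟨T, _, κ, D0, hκ, hS⟩ := hilb6 ξ1 (fun b => ∑ j, d j b) (by rwa [rk, rt_univ] at hn)
  obtain ⟨v, h, hv⟩ := Fc.sp_top (k := k) hK
  have ξ2 := ξ1
  choose m hm using ξ2
  obtain ⟨o, ho⟩ := D.one
  obtain ⟨C₀, hC₀⟩ : ∃ C₀ : ℕ, ∀ᶠ p in Fc.gen k (Sum.elim y ξ),
      e * (logHeight (fun i => v p (y i)) + ∑ b, logHeight (fun a => v p (ξ (b, a)))) ≤
        C₀ * (1 + ∑ b, (∑ j, d j b : ℕ) * logHeight fun a => v p (ξ (b, a))) := by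
    rcases eq_or_ne e 0 with rfl | e0
    · exact ⟨0, .of_forall fun _ => by simp only [Nat.cast_zero, zero_mul, le_refl]⟩
    · obtain ⟨C, hC⟩ := Main5_hc y h hm _ (rt_univ ξ d ▸ he e0)
      exact ⟨e * C, hC.mono fun _ k => (mul_le_mul_of_nonneg_left k e.cast_nonneg).trans_eq
        (by rw [Nat.cast_mul, mul_assoc])⟩
  have d0 : ∀ j b, ∑ j, d j b = 0 → d j b = 0 := fun j b k =>
    Finset.sum_eq_zero_iff.1 k j (Finset.mem_univ j)
  obtain ⟨Y', a, M, Z, G, G', g3, g2, g4, g5, g7, g8⟩ := num6 κ hκ hS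
    (fun _ _ h => inc_le (Inc.of_le ξ1 fun b => by split_ifs; exacts [le_rfl, h b])) q0
    (fun jj ⟨β, a, a', k1, k2⟩ => ⟨β, k1, fun m Y hY => low6 ξ1 k2 m _ fun b => by
      split_ifs with k
      · exact (Finset.sum_eq_zero fun i _ => by
          rw [Pi.single_eq_of_ne fun e : b = β i => k1 i (e ▸ d0 _ b k), mul_zero]).le
      · exact hY b⟩) (gd_ex hn) (fun n0 => gd_greedy q0 hn n0 hs) s0 sm
    (h1.imp_right (And.imp_right fun k j => gd_two hn (k j))) 2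
  obtain ⟨Y, hY⟩ : ∃ Y : Fin R → ℕ, Y = fun b => if ∑ j, d j b = 0 then 0 else Y' b := ⟨_, rfl⟩
  have y1 : ∀ j m, Module.finrank (adjoin k (Set.range y)) (bm (adjoin k (Set.range y)) ξ
      fun b => if ∑ j, d j b = 0 then 0 else Y' b - m * d j b) = Module.finrank _
        (bm (adjoin k (Set.range y)) ξ fun b => Y b - m * d j b) := fun j m => by
    rw [show (fun b => if ∑ j, d j b = 0 then 0 else Y' b - m * d j b) = fun b => Y b - m * d j b
      from funext fun b => by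
        simp only [hY]
        split_ifs
        exacts [(Nat.zero_sub _).symm, rfl]]
  have y2 : ∀ j m b, m * d j b ≤ Y' b → m * d j b ≤ Y b := fun j m b k => by
    simp only [hY]
    split_ifs with k'
    exacts [by rw [d0 j b k', mul_zero], k]
  simp only [y1] at g4
  rw [← hY] at g4
  replace g3 : ∀ j b, d j b ≤ Y b := fun j b => by simpa using y2 j 1 b (by simpa using g3 j b)
  have y3 : ∀ b, Y b ≤ (∑ b, Y b) * ∑ j, d j b ∧
      2 * Y b + ∑ j, d j b ≤ 2 * ∑ j, a j * d j b := fun b => by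
    have k1 := Finset.single_le_sum (f := Y) (fun _ _ => Nat.zero_le _) (Finset.mem_univ b)
    have k2 := g8 b
    by_cases k : ∑ j, d j b = 0
    · simp only [hY, k, if_true, mul_zero, add_zero, zero_le, and_self]
    · have k3 : Y b = Y' b := by simp only [hY, if_neg k]
      have k4 := Nat.pos_of_ne_zero k
      exact ⟨by nlinarith, by nlinarith⟩
  have : Infinite (adjoin k (Set.range y)) := Infinite.of_injective _ (algebraMap k _).injective
  obtain ⟨A, hA'⟩ : ∃ A : ℕ, A = 4 * ∑ b, Y b + 2 * (C₀ + 1) := ⟨_, rfl⟩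
  have hN := nev7 ξ1 hh hU s0 sm hP hQ g3 (fun j m b => y2 j _ b (g2 j m b)) g4 A
  obtain ⟨W, w1, h3⟩ := Nf.core D h (fun j => Function.ne_iff.2 ⟨finFunctionFinEquiv m, by
    simp only [pw, Equiv.symm_apply_apply]
    exact mul_ne_zero (hU j) (Finset.prod_ne_zero_iff.2 fun b _ => pow_ne_zero _ (hm b))⟩) 0 hN
    (lt_min hε one_pos)
  have w2 : ∀ P, ∀ᶠ z in Fc.gen k (Sum.elim y ξ), v z (aeval (Sum.elim y ξ) P) = eval z P :=
    fun P => by
      filter_upwards [hv, h.aeval (Sum.elim y ξ) P] with z z1 z2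
      have e1 : (fun s => v z (Sum.elim y ξ s)) = z := funext (Sum.forall.2 z1)
      rw [z2, e1]
  have w3 : ∀ μ : Mn N Y, ∀ᶠ z in Fc.gen k (Sum.elim y ξ),
      v z (mn ξ μ) = mn (fun s => z (.inr s)) μ := fun μ => by
    simpa [mn] using w2 (mn (fun s => X (.inr s)) μ)
  have w4 : ∀ j l, ∀ᶠ z in Fc.gen k (Sum.elim y ξ),
      v z (pw ξ (aeval (Sum.elim y ξ) (U j)) (fun b => Y b - d j b) l) =
        pw (fun s => z (.inr s)) (eval z (U j)) (fun b => Y b - d j b) l := fun j l => by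
    simpa [pw] using w2 (pw (fun s => X (.inr s)) (U j) (fun b => Y b - d j b) l)
  have w5 : ∀ P, aeval (Sum.elim y ξ) P ≠ 0 → ∀ᶠ z in Fc.gen k (Sum.elim y ξ), eval z P ≠ 0 :=
    fun P hP => ⟨P, hP, fun _ _ h => h⟩
  obtain ⟨Θ, a1, a2⟩ := Filter.inter_mem w1 (hv.and ((Filter.eventually_all.2 w3).and
    ((Filter.eventually_all.2 fun j => Filter.eventually_all.2 (w4 j)).and
    ((Filter.eventually_all.2 fun j => w5 _ (hU j)).and
    ((w5 (X (.inl o)) (by simp [ho])).and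
    ((Filter.eventually_all.2 fun b => w5 (X (.inr (b, m b))) (by simpa using hm b)).and
    hC₀))))))
  refine ⟨Θ, fun j => A * a j, a1, fun S => ?_⟩
  obtain ⟨C, hC⟩ := h3 S
  refine ⟨C + C₀, fun x t p1 p2 => ?_⟩
  obtain ⟨b1, ⟨b2, b2'⟩, b3, b4, b5, b6, b7, b8⟩ := a2 _ p1 p2
  have hx : x ≠ 0 := Function.ne_iff.2 ⟨o, by simpa using b6⟩
  have ht : ∀ b, (fun a => t (b, a)) ≠ 0 := fun b => Function.ne_iff.2 ⟨m b, by simpa using b7 b⟩
  refine ⟨b5, ht, ?_⟩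
  have c1 := hC _ b1
  simp only [b2, b3, b4, Sum.elim_inl, Sum.elim_inr, Pi.zero_apply] at c1
  simp only [b2, b2', Sum.elim_inl, Sum.elim_inr] at b8
  have c2 := fun j => Main_split S hx ht (b5 j) 0 (g3 j)
  have c3 := Main_ht ht Y
  have c0 := fun b => logHeight_nonneg fun a => t (b, a)
  have c8 : ∑ b, Y b * logHeight (fun a => t (b, a)) ≤
      (∑ b, Y b : ℕ) * ∑ b, (∑ j, d j b : ℕ) * logHeight fun a => t (b, a) := by
    rw [Finset.mul_sum]
    exact Finset.sum_le_sum fun b _ => (mul_le_mul_of_nonneg_right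
      (by exact_mod_cast (y3 b).1) (c0 b)).trans_eq (mul_assoc _ _ _)
  have c10 := Finset.sum_congr rfl fun j (_ : j ∈ Finset.univ) => congrArg ((a j : ℝ) * ·) (c2 j)
  have c11 : 2 * ∑ b, Y b * logHeight (fun a => t (b, a)) +
      ∑ b, (∑ j, d j b : ℕ) * logHeight (fun a => t (b, a)) ≤
      2 * ∑ j, (a j : ℝ) * ∑ b, d j b * logHeight (fun a => t (b, a)) := by
    simp only [Finset.mul_sum _ _ (a _ : ℝ), ← mul_assoc]
    rw [Finset.sum_comm, Finset.mul_sum, Finset.mul_sum, ← Finset.sum_add_distrib]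
    refine Finset.sum_le_sum fun b _ => ?_
    rw [← Finset.sum_mul, ← mul_assoc, ← mul_assoc, ← add_mul]
    exact mul_le_mul_of_nonneg_right (by exact_mod_cast (y3 b).2) (c0 b)
  simp only [mul_add, Finset.sum_add_distrib, Nat.cast_zero, zero_mul, zero_add] at c10
  conv at c10 => enter [1, 2]; simp only [pow_zero, one_mul]
  have c12 : ∑ s : Rt.Pl S, (Rt.mu s : ℝ) * ∑ j, ((A * a j : ℕ) : ℝ) *
      Real.log ((⨆ i, Rt.av s (x i)) ^ 0 * (⨆ μ : Mn N Y, Rt.av s (mn t μ)) ^ 1 /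
        ⨆ l, Rt.av s (pw t (eval (Sum.elim x t) (U j)) (fun b => Y b - d j b) l)) =
      A * ∑ j, (a j : ℝ) * Tb.iS S (fun w => Real.log ((⨆ i, w (x i)) ^ 0 *
        (⨆ μ : Mn N Y, w (mn t μ)) ^ 1 /
        ⨆ l, w (pw t (eval (Sum.elim x t) (U j)) (fun b => Y b - d j b) l))) := by
    simp only [Tb.iS, Finset.mul_sum]
    rw [Finset.sum_comm]
    refine Finset.sum_congr rfl fun j _ => Finset.sum_congr rfl fun s _ => ?_
    push_cast
    ring
  have c13 : (∑ s : Rt.Pl S, (Rt.mu s : ℝ) * ∑ j, ((A * a j : ℕ) : ℝ) *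
      Real.log ((⨆ i, Rt.av s (x i)) ^ 0 * (⨆ μ : Mn N Y, Rt.av s (mn t μ)) ^ 1 /
        ⨆ l, Rt.av s (pw t (eval (Sum.elim x t) (U j)) (fun b => Y b - d j b) l))) ≤
      ((((A + 1) * 1 : ℕ) : ℝ) + min ε 1) * logHeight (mn (Y := Y) t) +
        min ε 1 * logHeight x + C := c1
  rw [c12, c3, mul_one, Nat.cast_succ] at c13
  have c14 := logHeight_nonneg x
  have c15 := main6_num (W := C₀ + 1) (by exact_mod_cast hA') (Nat.cast_nonneg _)
    (by positivity) (min_le_right ε 1)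
    (Finset.sum_nonneg fun b _ => mul_nonneg (Nat.cast_nonneg _) (c0 b)) c8 c11 c13 c10
  rw [Finset.sum_comm, Finset.sum_congr rfl fun b _ => by rw [← Finset.sum_mul, ← Nat.cast_sum]]
  simp only [Nat.cast_mul, mul_assoc (A : ℝ), ← Finset.mul_sum]
  linarith [mul_le_mul_of_nonneg_right (min_le_left ε 1) c14]

end Pool.Agent.Lib.MP_651af7_nt.Am6
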