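import Mathlib

/-! The theorem of Rado on independent transversals, with a defect. -/

namespace Pool.Agent.Lib.MP_651af7_nt.Am6

open Finset

theorem rado_del {A : Type} (M : Matroid A) {q : ℕ} {E : Fin q → Set A} {e : ℕ}
    (h : ∀ T : Finset (Fin q), (T.card : ℕ∞) ≤ M.eRk (⋃ j ∈ T, E j) + e) (j : Fin q) {x y : A}
    (hxy : x ≠ y) {T T' : Finset (Fin q)}
    (h1 : M.eRk (⋃ i ∈ T, Function.update E j (E j \ {x}) i) + e < T.card)
    (h2 : M.eRk (⋃ i ∈ T', Function.update E j (E j \ {y}) i) + e < T'.card) : False := by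
  have k0 : ∀ (z : A) (T : Finset (Fin q)),
      M.eRk (⋃ i ∈ T, Function.update E j (E j \ {z}) i) + e < T.card → j ∈ T := fun z T k =>
    by_contra fun k' => k.not_ge ((h T).trans_eq (congrArg (M.eRk · + (e : ℕ∞))
      (Set.iUnion₂_congr fun i hi =>
        (Function.update_of_ne (fun e : i = j => k' (e ▸ hi)) _ E).symm)))
  have k1 := k0 _ _ h1
  have k2 := k0 _ _ h2
  have k3 := (add_le_add (M.eRk_mono (a := ⋃ i ∈ (T ∩ T').erase j, E i) (Set.iUnion₂_subset
    fun i hi => Set.subset_inter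
      (Set.subset_iUnion₂_of_subset i (mem_inter.1 (mem_erase.1 hi).2).1
        (Function.update_of_ne (mem_erase.1 hi).1 _ E).ge)
      (Set.subset_iUnion₂_of_subset i (mem_inter.1 (mem_erase.1 hi).2).2
        (Function.update_of_ne (mem_erase.1 hi).1 _ E).ge)))
    (M.eRk_mono (a := ⋃ i ∈ T ∪ T', E i) (Set.iUnion₂_subset fun i hi z hz => by
      rcases eq_or_ne i j with rfl | k
      · rcases eq_or_ne z x with rfl | k
        · exact .inr (Set.mem_iUnion₂.2 ⟨i, k2, by simpa using ⟨hz, hxy⟩⟩)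
        · exact .inl (Set.mem_iUnion₂.2 ⟨i, k1, by simpa using ⟨hz, k⟩⟩)
      · exact (mem_union.1 hi).imp (fun hi => Set.mem_iUnion₂.2 ⟨i, hi, by simpa [k] using hz⟩)
          fun hi => Set.mem_iUnion₂.2 ⟨i, hi, by simpa [k] using hz⟩))).trans
    (M.eRk_inter_add_eRk_union_le (⋃ i ∈ T, Function.update E j (E j \ {x}) i)
      (⋃ i ∈ T', Function.update E j (E j \ {y}) i))
  have k4 := add_le_add (h ((T ∩ T').erase j)) (h (T ∪ T'))
  rw [add_add_add_comm] at k4
  replace k4 := k4.trans (add_le_add_left k3 _)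
  generalize M.eRk (⋃ i ∈ T, Function.update E j (E j \ {x}) i) = r at h1 k4
  generalize M.eRk (⋃ i ∈ T', Function.update E j (E j \ {y}) i) = r' at h2 k4
  lift r to ℕ using (le_self_add.trans_lt h1).ne_top
  lift r' to ℕ using (le_self_add.trans_lt h2).ne_top
  norm_cast at h1 h2 k4
  have := card_erase_add_one (mem_inter.2 ⟨k1, k2⟩)
  have := card_union_add_card_inter T T'
  omega

theorem rado {A : Type} [Nonempty A] (M : Matroid A) {q : ℕ} (E : Fin q → Set A)
    (hE : ∀ j, E j ⊆ M.E) (hf : ∀ j, (E j).Finite) (e : ℕ)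
    (h : ∀ T : Finset (Fin q), (T.card : ℕ∞) ≤ M.eRk (⋃ j ∈ T, E j) + e) :
    ∃ (T : Finset (Fin q)) (x : Fin q → A), q ≤ T.card + e ∧ Set.InjOn x T ∧ M.Indep (x '' T) ∧
      ∀ j ∈ T, x j ∈ E j := by
  induction hn : ∑ j, (E j).ncard using Nat.strong_induction_on generalizing E with
  | _ n ih =>
  by_cases k : ∀ j, (E j).Subsingleton
  · have k1 : ∀ j, ∃ x, E j ⊆ {x} := fun j => (k j).eq_empty_or_singleton.elim
      (fun e => ⟨Classical.arbitrary A, e ▸ Set.empty_subset _⟩) fun ⟨x, e⟩ => ⟨x, e.le⟩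
    choose x hx using k1
    obtain ⟨B, hB⟩ := M.exists_isBasis (⋃ j ∈ (univ : Finset (Fin q)), E j)
      (Set.iUnion₂_subset fun j _ => hE j)
    obtain ⟨T, t1, t2, rfl⟩ := Set.SurjOn.exists_subset_injOn_image_eq (f := x)
      (s := {j | x j ∈ E j}) (t := B) fun z hz => by
        obtain ⟨j, -, hj⟩ := Set.mem_iUnion₂.1 (hB.subset hz)
        obtain rfl : z = x j := hx j hj
        exact ⟨j, hj, rfl⟩
    lift T to Finset (Fin q) using T.toFinite
    refine ⟨T, x, ?_, t2, hB.indep, t1⟩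
    have k2 := h univ
    rw [← hB.encard_eq_eRk, t2.encard_image, Set.encard_coe_eq_coe_finsetCard, card_univ,
      Fintype.card_fin] at k2
    exact_mod_cast k2
  simp only [not_forall, Set.not_subsingleton_iff] at k
  obtain ⟨j, x, hx, y, hy, hxy⟩ := k
  obtain ⟨z, hz, k1⟩ : ∃ z ∈ E j, ∀ T : Finset (Fin q),
      (T.card : ℕ∞) ≤ M.eRk (⋃ i ∈ T, Function.update E j (E j \ {z}) i) + e := by
    by_contra k
    push Not at k
    obtain ⟨T, h1⟩ := k x hx
    obtain ⟨T', h2⟩ := k y hy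
    exact rado_del M h j hxy h1 h2
  have k2 : ∀ i, Function.update E j (E j \ {z}) i ⊆ E i := fun i => by
    rcases eq_or_ne i j with rfl | k
    · simp
    · simp [k]
  obtain ⟨T, w, t1, t2, t3, t4⟩ := ih _ (hn ▸ sum_lt_sum
    (fun i _ => Set.ncard_le_ncard (k2 i) (hf i)) ⟨j, mem_univ j, by
      simpa using Set.ncard_sdiff_singleton_lt_of_mem hz (hf j)⟩) _
    (fun i => (k2 i).trans (hE i)) (fun i => (hf i).subset (k2 i)) k1 rfl
  exact ⟨T, w, t1, t2, t3, fun i hi => k2 i (t4 i hi)⟩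

end Pool.Agent.Lib.MP_651af7_nt.Am6
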