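import Pool.Agent.Lib.MP_651af7_nt.Am.Nev
import Pool.Agent.Lib.MP_651af7_nt.Am6.Mat
import Pool.Agent.Lib.MP_651af7_nt.Am6.Rado

/-! Divisors with independent local equations meet. -/

namespace Pool.Agent.Lib.MP_651af7_nt.Am6

open Finset Am

variable {F K : Type} [Field F] [Field K] [Algebra F K] {R N q m : ℕ}
  {ξ : Fin R × Fin N → K} {d : Fin q → Fin R → ℕ} {u : Fin q → K}

theorem meet_val {s : Set K} (hs : (AlgebraicIndependent.matroid F K).Indep s) :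
    ∃ O : ValuationSubring K, (∀ z : F, algebraMap F K z ∈ O) ∧ ∀ z ∈ s, O.valuation z < 1 := by
  have hx : AlgebraicIndependent F fun z : s => (z : K) := hs
  obtain ⟨O, o1, o2⟩ := Ideal.image_subset_nonunits_valuationSubring
    (A := (Algebra.adjoin F (Set.range fun z : s => (z : K))).toSubring) _ (RingHom.ker_ne_top
      ((MvPolynomial.constantCoeff (σ := s) (R := F)).comp hx.aevalEquiv.symm.toRingEquiv.toRingHom))
  refine ⟨O, fun z => o1 (Subalgebra.algebraMap_mem _ z), fun z hz =>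
    O.mem_nonunits_iff.1 (o2 ⟨hx.aevalEquiv (MvPolynomial.X ⟨z, hz⟩), ?_, ?_⟩)⟩
  · simp
  · exact (hx.algebraMap_aevalEquiv _).trans (MvPolynomial.aeval_X _ _)

theorem meet_not (ξ1 : ∀ b, ∃ a, ξ (b, a) ≠ 0) (hh : ∀ j, u j ∈ bm F ξ (d j)) (hM : Meet F ξ d u m)
    {T : Finset (Fin q)} {x : Fin q → K} (h1 : (AlgebraicIndependent.matroid F K).Indep (x '' T))
    (h2 : ∀ j ∈ T, ∃ ε : Fin R → Fin N, u j / ∏ b, ξ (b, ε b) ^ d j b = x j) : #T ≤ m := by
  obtain ⟨O, o1, o2⟩ := meet_val h1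
  have h3 : ∀ b, ∃ i, ξ (b, i) ≠ 0 ∧ ∀ i', ξ (b, i') / ξ (b, i) ∈ O := fun b => by
    obtain ⟨i0, h0⟩ := ξ1 b
    obtain ⟨i, -, hi⟩ := exists_max_image univ (fun i => O.valuation (ξ (b, i))) ⟨i0, mem_univ _⟩
    have h3 : 0 < O.valuation (ξ (b, i)) :=
      (zero_lt_iff.2 ((map_ne_zero _).2 h0)).trans_le (hi i0 (mem_univ _))
    refine ⟨i, (map_ne_zero _).1 h3.ne', fun i' => ?_⟩
    rw [← O.valuation_le_one_iff, map_div₀, div_le_one₀ h3]
    exact hi i' (mem_univ _)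
  choose ε e1 e2 using h3
  have hO : ∀ z : chart F ξ ε, z.1 ∈ O := fun z => by
    refine Algebra.adjoin_induction ?_ o1 (fun _ _ _ _ => add_mem) (fun _ _ _ _ => mul_mem) z.2
    rintro _ ⟨s, rfl⟩
    exact e2 s.1 s.2
  refine le_of_not_gt fun k => ?_
  have k1 := hM ε e1 (fun j => ⟨_, nev_div (hh j) ε⟩) (fun _ => rfl) T k
  refine (Ideal.comap_isPrime ((chart F ξ ε).val.toRingHom.codRestrict O hO)
    (IsLocalRing.maximalIdeal O)).ne_top (top_le_iff.1 (k1.ge.trans (Ideal.span_le.2 ?_)))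
  rintro _ ⟨j, hj, rfl⟩
  obtain ⟨ε', k2⟩ := h2 j hj
  obtain ⟨μ, hμ⟩ := nev_one (ξ := ξ) ε' (d j)
  have k3 := (O.valuation_le_one_iff _).2 (hO ⟨_, nev_div (hμ ▸ nev_mn (F := F) μ) ε⟩)
  have k4 : ∏ b, ξ (b, ε' b) ^ d j b ≠ 0 := fun e => AlgebraicIndependent.ne_zero
    (x := fun z : x '' T => (z : K)) h1 ⟨_, j, hj, rfl⟩
      (k2.symm.trans (by rw [e, div_zero]))
  refine (O.valuation_lt_one_iff _).2 ?_
  change O.valuation (u j / _) < 1
  rw [← div_mul_div_cancel₀ k4, map_mul, k2]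
  exact (mul_le_of_le_one_right' k3).trans_lt (o2 _ ⟨j, hj, rfl⟩)

theorem meet_cl (ξ1 : ∀ b, ∃ a, ξ (b, a) ≠ 0) (hu : ∀ j, u j ≠ 0) (T : Finset (Fin q)) :
    rt ξ d T ⊆ (AlgebraicIndependent.matroid F K).closure (⋃ j ∈ T, Set.range
      fun ε : Fin R → Fin N => u j / ∏ b, ξ (b, ε b) ^ d j b) := by
  rintro _ ⟨j, hj, b, a, a', h, rfl⟩
  choose ε hε using ξ1
  rw [AlgebraicIndependent.matroid_closure_eq, SetLike.mem_coe, Subalgebra.mem_algebraicClosure,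
    ← IntermediateField.isAlgebraic_adjoin_iff]
  have k1 : ∀ a, ∏ c, ξ (c, Function.update ε b a c) ^ d j c =
      ξ (b, a) ^ d j b * ∏ c ∈ univ.erase b, ξ (c, ε c) ^ d j c := fun a => by
    rw [← mul_prod_erase _ _ (mem_univ b), Function.update_self,
      prod_congr rfl fun c hc => by rw [Function.update_of_ne (ne_of_mem_erase hc)]]
  refine .of_pow (Nat.pos_of_ne_zero h) (isAlgebraic_algebraMap (⟨_, ?_⟩ :
    IntermediateField.adjoin F _))
  change (ξ (b, a) / ξ (b, a')) ^ d j b ∈ _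
  rw [show (ξ (b, a) / ξ (b, a')) ^ d j b = u j / (∏ c, ξ (c, Function.update ε b a' c) ^ d j c) /
    (u j / ∏ c, ξ (c, Function.update ε b a c) ^ d j c) by
      rw [div_div_div_cancel_left' _ _ (hu j), k1, k1, mul_div_mul_right _ _
        (prod_ne_zero_iff.2 fun c _ => pow_ne_zero _ (hε c)), div_pow]]
  exact div_mem (IntermediateField.subset_adjoin _ _ (Set.mem_biUnion hj ⟨_, rfl⟩))
    (IntermediateField.subset_adjoin _ _ (Set.mem_biUnion hj ⟨_, rfl⟩))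

theorem meet_ex (ξ1 : ∀ b, ∃ a, ξ (b, a) ≠ 0) (hu : ∀ j, u j ≠ 0) (hh : ∀ j, u j ∈ bm F ξ (d j))
    (hM : Meet F ξ d u m) {r : Finset (Fin q) → ℕ} (hr : ∀ T, rk F ξ d T = r T) :
    ∃ T, r T + q ≤ m + #T := by
  have h1 : ∀ T, (r T : ℕ∞) ≤ (AlgebraicIndependent.matroid F K).eRk (⋃ j ∈ T, Set.range
      fun ε : Fin R → Fin N => u j / ∏ b, ξ (b, ε b) ^ d j b) := fun T => by
    obtain ⟨B, hB⟩ := (AlgebraicIndependent.matroid F K).exists_isBasis (rt ξ d T)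
      (Set.subset_univ _)
    lift B to Finset K using (rt_fin T).subset hB.subset
    rw [Nat.cast_injective ((hr T).symm.trans (rk_basis hB)), ← Set.encard_coe_eq_coe_finsetCard,
      hB.encard_eq_eRk, ← Matroid.eRk_closure_eq _ (⋃ j ∈ T, _)]
    exact Matroid.eRk_mono _ (meet_cl ξ1 hu T)
  by_contra k
  have k1 : ∀ T, m + #T < r T + q := fun T => lt_of_not_ge fun e => k ⟨T, e⟩
  have k2 : r ∅ = 0 := by simpa using h1 ∅
  have k3 := k1 ∅
  obtain ⟨T, x, t1, -, t2, t3⟩ := rado _ _ (fun j => Set.subset_univ _)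
    (fun j => Set.finite_range _) (q - (m + 1)) fun T => le_trans (by
      have := k1 T
      exact_mod_cast (by omega : #T ≤ r T + (q - (m + 1)))) (add_le_add_left (h1 T) _)
  have := meet_not ξ1 hh hM t2 t3
  omega

end Pool.Agent.Lib.MP_651af7_nt.Am6
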