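import Pool.Agent.Lib.MP_651af7_nt.Am6.Defs
import Pool.Agent.Lib.MP_651af7_nt.Ds.Defs

/-! Pencils: the divisors of poles of rational functions. -/

namespace Pool.Agent.Lib.MP_651af7_nt.Am6

open MvPolynomial NumberField IntermediateField Am

variable {k K : Type} [Field k] [Field K] [Algebra k K] {q : ℕ}

/-- One divisor always meets itself properly. -/
theorem idx_one {R N : ℕ} {ξ : Fin R × Fin N → K} {d : Fin q → Fin R → ℕ} {u : Fin q → K}
    (hu : ∀ j, u j ≠ 0) : Idx k ξ d u 1 := by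
  intro ε hε φ hφ T hT
  rcases T.eq_empty_or_nonempty with rfl | ⟨j, hj⟩
  · simp
  obtain rfl : T = {j} := Finset.eq_singleton_iff_unique_mem.2
    ⟨hj, fun i hi => Finset.card_le_one.1 hT i hi j hj⟩
  rw [Finset.card_singleton, Finset.coe_singleton, Set.image_singleton, Nat.cast_one]
  refine Ideal.one_le_height_span_singleton_of_mem_nonZeroDivisors
    (mem_nonZeroDivisors_of_ne_zero fun e => ?_)
  have h := hφ j
  rw [e] at h
  exact div_ne_zero (hu j) (Finset.prod_ne_zero_iff.2 fun b _ => pow_ne_zero _ (hε b)) h.symm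

theorem pen_pt {Ω : Type} [Field Ω] : Ds.Abelian (⊥ : Ideal (MvPolynomial (Fin 1) Ω)) := by
  refine ⟨Unit, inferInstance, fun _ _ => 1, ⟨Ideal.isPrime_bot, fun P hP d => by
    rw [Ideal.mem_bot.1 hP, map_zero]; exact Ideal.zero_mem _,
    fun _ h => one_ne_zero (congrFun h 0), fun _ P hP => by rw [Ideal.mem_bot.1 hP, map_zero],
    fun v _ _ => ⟨(), ⟨v 0, funext fun a => by simp [Subsingleton.elim a 0]⟩, fun _ _ => rfl⟩⟩,
    fun _ _ => ⟨0, fun _ => 1, fun _ => isWeightedHomogeneous_one _ _, ⟨0, by simp⟩,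
      fun _ _ => ⟨1, by simp⟩⟩⟩

theorem pen_hy (P : MvPolynomial (Fin 1) k) (d : ℕ) (hP : P.IsHomogeneous d) :
    aeval (fun _ => (1 : K)) P = 0 ↔ P ∈ (⊥ : Ideal (MvPolynomial (Fin 1) k)) := by
  refine ⟨fun h => ?_, fun h => by rw [Ideal.mem_bot.1 h, map_zero]⟩
  have e : P = monomial (Finsupp.single 0 d) (P.coeff (Finsupp.single 0 d)) := by
    ext m
    rw [coeff_monomial]
    split_ifs with h
    · rw [h]
    · refine hP.coeff_eq_zero fun h' => h ?_
      rw [Finsupp.unique_single m, ← h', Finsupp.degree_eq_sum, Fin.sum_univ_one]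
      rfl
  rw [e, aeval_monomial, Finsupp.prod, Finset.prod_eq_one fun _ _ => one_pow _, mul_one,
    map_eq_zero] at h
  rw [e, h, map_zero]
  exact Ideal.zero_mem _

/-- The blocks `(1, f b)`. -/
def pb {A : Type} [One A] (f : Fin q → A) (s : Fin q × Fin 2) : A := ![1, f s.1] s.2

/-- The multidegree of the divisor `j`. -/
def pd (j b : Fin q) : ℕ := if b = j then 1 else 0

theorem pen_prod {A : Type} [CommMonoid A] (g : Fin q → A) (j : Fin q) :
    ∏ b, g b ^ pd j b = g j := by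
  simp [pd]

theorem pen_top (F : IntermediateField k K) {f : Fin q → K} (hK : adjoin k (Set.range f) = ⊤) :
    adjoin F (Set.range (pb f)) = ⊤ := by
  refine eq_top_iff.2 fun x _ => ?_
  have h : adjoin k (Set.range f) ≤ (adjoin F (Set.range (pb f))).restrictScalars k :=
    adjoin_le_iff.2 fun _ ⟨j, hj⟩ => subset_adjoin F _ ⟨(j, 1), hj⟩
  exact h (hK ▸ mem_top)

theorem pen_bm (f : Fin q → K) (j : Fin q) : (1 : K) ∈ bm k (pb f) (pd j) := by
  refine Submodule.subset_span ⟨fun s => ![pd j s.1, 0] s.2, fun b => by simp, ?_⟩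
  rw [Fintype.prod_prod_type]
  simp [pb]

theorem pen_meet {F : Type} [Field F] [Algebra F K] {f : Fin q → K} {m : ℕ}
    (hm : ∀ O : ValuationSubring K, (∀ c : F, algebraMap F K c ∈ O) → {j | f j ∉ O}.ncard ≤ m) :
    Meet F (pb f) pd (fun _ => 1) m := by
  intro ε hε φ hφ T hT
  by_contra hne
  obtain ⟨O, h1, h2⟩ := Ideal.image_subset_nonunits_valuationSubring
    (A := (chart F (pb f) ε).toSubring) (Ideal.span (φ '' T)) hne
  refine hT.not_ge (le_trans ?_ (hm O fun c => h1 ((chart F (pb f) ε).algebraMap_mem c)))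
  rw [← Set.ncard_coe_finset]
  refine Set.ncard_le_ncard (fun j hj hO => ?_) (Set.toFinite _)
  have h3 : (φ j : K) ∈ O.nonunits := h2 ⟨φ j, Ideal.subset_span ⟨j, hj, rfl⟩, rfl⟩
  have h4 : pb f (j, ε j) ∈ O := by
    generalize ε j = a
    fin_cases a
    · exact O.one_mem
    · exact hO
  rw [hφ j, pen_prod (fun b => pb f (b, ε b)), ValuationSubring.mem_nonunits_iff, map_div₀,
    map_one, div_lt_one₀ (zero_lt_iff.2 ((map_ne_zero _).2 (hε j)))] at h3
  exact h3.not_ge ((O.valuation_le_one_iff _).2 h4)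

theorem pen_rt (f : Fin q → K) (j : Fin q) : f j ∈ rt (pb f) pd {j} :=
  ⟨j, Finset.mem_singleton_self j, j, 1, 0, by simp [pd], by simp [pb]⟩

theorem pen_end [NumberField k] {f : Fin q → K} {S : Finset (FinitePlace k)} {B : ℝ}
    (h : ∃ Θ : MvPolynomial (Fin 1 ⊕ Fin q × Fin 2) k,
      aeval (Sum.elim (fun _ => 1) (pb f)) Θ ≠ 0 ∧ ∀ (x : Fin 1 → k) (t : Fin q × Fin 2 → k),
        (∀ P, aeval (Sum.elim (fun _ => 1) (pb f)) P = 0 → eval (Sum.elim x t) P = 0) →
        (∀ j, ∑ᶠ v ∈ (S : Set (FinitePlace k))ᶜ, Real.log ((∏ b, (⨆ a, v (t (b, a))) ^ pd j b) /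
          v (eval (Sum.elim x t) (X (.inr (j, 0))))) ≤ B) → eval (Sum.elim x t) Θ = 0) :
    ∃ Θ : MvPolynomial (Fin q) k, aeval f Θ ≠ 0 ∧ ∀ t : Fin q → k,
      (∀ P, aeval f P = 0 → eval t P = 0) →
      (∀ j, ∑ᶠ v ∈ (S : Set (FinitePlace k))ᶜ, Real.log (max 1 (v (t j))) ≤ B) → eval t Θ = 0 := by
  have key : ∀ {L : Type} [Field L] [Algebra k L] (g : Fin q → L)
      (P : MvPolynomial (Fin 1 ⊕ Fin q × Fin 2) k),
      aeval g (aeval (Sum.elim (fun _ => 1) (pb X) : _ → MvPolynomial (Fin q) k) P) =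
        aeval (Sum.elim (fun _ => 1) (pb g)) P := by
    intro L _ _ g P
    rw [← AlgHom.comp_apply, comp_aeval]
    congr 2
    funext s
    rcases s with s | ⟨b, a⟩
    · simp
    · fin_cases a <;> simp [pb]
  obtain ⟨Θ, h1, h2⟩ := h
  refine ⟨_, (key f Θ).trans_ne h1, fun t h3 h4 => (key t Θ).trans
    (h2 (fun _ => 1) (pb t) (fun P hP => (key t P).symm.trans (h3 _ ((key f P).trans hP)))
      fun j => le_of_eq_of_le ?_ (h4 j))⟩
  refine finsum_congr fun v => finsum_congr fun _ => congrArg Real.log ?_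
  rw [pen_prod (fun b => ⨆ a, v (pb t (b, a))), eval_X]
  change _ / v 1 = _
  rw [map_one, div_one]
  have hb := (Set.finite_range fun a => v (pb t (j, a))).bddAbove
  refine le_antisymm (ciSup_le fun a => ?_)
    (max_le ((map_one v).ge.trans (le_ciSup hb 0)) (le_ciSup hb 1))
  fin_cases a
  · exact (map_one v).le.trans (le_max_left _ _)
  · exact le_max_right _ _

end Pool.Agent.Lib.MP_651af7_nt.Am6
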