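import Pool.Agent.Lib.MP_651af7_nt.Am6.Pen
import Pool.Agent.Lib.MP_651af7_nt.Bx.Dim
import Pool.Agent.Lib.MP_651af7_nt.Av.Tr

/-! Pencils meet properly if their rank is as large as possible. -/

namespace Pool.Agent.Lib.MP_651af7_nt.Am6

open MvPolynomial IntermediateField Am

variable {k K : Type} [Field k] [Field K] [Algebra k K] {q : ℕ}

theorem pen_dim {B : Type} [CommRing B] [IsDomain B] [Algebra k B] [Algebra.FiniteType k B]
    (h : ℕ) : ∀ (p : Ideal B) [p.IsPrime], p.height ≤ h → ∀ {r : ℕ} {z : Fin (r + h) → B},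
      AlgebraicIndependent k z →
        ∃ z' : Fin r → B, AlgebraicIndependent k fun t => Ideal.Quotient.mk p (z' t) := by
  have hN : IsNoetherianRing B := Algebra.FiniteType.isNoetherianRing k B
  have h0 : ∀ {r n : ℕ} {z : Fin (r + n) → B}, AlgebraicIndependent k z →
      ∃ z' : Fin r → B, AlgebraicIndependent k fun t => Ideal.Quotient.mk ⊥ (z' t) :=
    fun {r n z} hz => ⟨z ∘ Fin.castAdd n, (hz.comp _ (Fin.castAdd_injective _ _)).map'
      (f := Ideal.Quotient.mkₐ k ⊥) ((Ideal.Quotient.mk_bijective_iff_eq_bot _).2 rfl).1⟩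
  induction h with
  | zero =>
    intro p _ hp r z hz
    obtain rfl := Ideal.height_eq_zero_iff_eq_bot.1 (nonpos_iff_eq_zero.1 hp)
    exact h0 hz
  | succ h ih =>
    intro p _ hp r z hz
    by_cases hb : p = ⊥
    · subst hb
      exact h0 hz
    obtain ⟨Q, ⟨q1, q2⟩, q3⟩ := set_has_maximal_iff_noetherian.2 hN
      {Q : Ideal B | Q.IsPrime ∧ Q < p} ⟨⊥, Ideal.isPrime_bot, bot_lt_iff_ne_bot.2 hb⟩
    have q4 : Ideal.height Q ≤ h := Order.le_of_lt_add_one (Ideal.height_le_iff.1 hp Q q1 q2)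
    obtain ⟨z1, h1⟩ := ih Q q4 (r := r + 1) (z := z ∘ Fin.cast (by omega))
      (hz.comp _ (Fin.cast_injective _))
    have hk : RingHom.ker (Ideal.Quotient.mk Q) ≤ p := Ideal.mk_ker.trans_le q2.le
    have := Ideal.map_isPrime_of_surjective Ideal.Quotient.mk_surjective hk
    obtain ⟨z2, h2⟩ := Bx.ht_indep (p.map (Ideal.Quotient.mk Q)) (Ideal.height_le_iff (n := 1).2
      fun q' h3 h4 => by
        have h5 : q'.comap (Ideal.Quotient.mk Q) < p := lt_of_le_of_ne
          ((Ideal.comap_mono h4.le).trans (by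
            rw [Ideal.comap_map_of_surjective _ Ideal.Quotient.mk_surjective]
            exact sup_le le_rfl hk)) fun e => h4.ne (by
              rw [← e, Ideal.map_comap_of_surjective _ Ideal.Quotient.mk_surjective])
        have h6 : Q = q'.comap (Ideal.Quotient.mk Q) := by
          refine eq_of_le_of_not_lt (fun a ha => ?_) (q3 _ ⟨inferInstance, h5⟩)
          rw [Ideal.mem_comap, Ideal.Quotient.eq_zero_iff_mem.2 ha]
          exact q'.zero_mem
        rw [← Ideal.map_comap_of_surjective _ Ideal.Quotient.mk_surjective q', ← h6,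
          Ideal.map_quotient_self, Ideal.height_bot]
        exact zero_lt_one) h1
    choose w hw using fun t => Ideal.Quotient.mk_surjective (z2 t)
    refine ⟨w, ?_⟩
    have h7 := h2.map' (f := (DoubleQuot.quotQuotEquivQuotOfLEₐ k q2.le).toAlgHom)
      (DoubleQuot.quotQuotEquivQuotOfLEₐ k q2.le).injective
    convert h7 using 2 with t
    simp [← hw]
    rfl

theorem pen_sel {w : ℕ} {z : Fin w → K} (hz : AlgebraicIndependent k z) (s : Set K)
    (h : ∀ L : IntermediateField k K, s ⊆ L → ∀ i, z i ∈ L) :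
    ∃ y : Fin w → K, AlgebraicIndependent k y ∧ ∀ i, y i ∈ s := by
  obtain ⟨L, h1, h2⟩ := Av.tr_cl (K := k) s
  obtain ⟨B, hB⟩ := (AlgebraicIndependent.matroid k K).exists_isBasis s (Set.subset_univ _)
  have h3 : (AlgebraicIndependent.matroid k K).Indep (Set.range z) := hz.to_subtype_range
  have h4 := h3.encard_le_eRk_of_subset
    (X := (AlgebraicIndependent.matroid k K).closure s) (h1 ▸ Set.range_subset_iff.2 (h L h2))
  rw [Matroid.eRk_closure_eq, ← hB.encard_eq_eRk] at h4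
  obtain ⟨g, g1, g2⟩ := (Set.finite_range z).exists_injOn_of_encard_le h4
  exact ⟨_, AlgebraicIndependent.comp hB.indep (fun i => ⟨g (z i), g1 ⟨i, rfl⟩⟩)
    fun i j e => hz.injective (g2 ⟨i, rfl⟩ ⟨j, rfl⟩ (congrArg Subtype.val e)),
    fun i => hB.subset (g1 ⟨i, rfl⟩)⟩

theorem pen_val {σ : Type} (x : σ → K)
    (h : ∀ Q : MvPolynomial σ k, aeval x Q = 0 → aeval (fun _ => (0 : k)) Q = 0) :
    ∃ O : ValuationSubring K, (∀ c : k, algebraMap k K c ∈ O) ∧ ∀ i, x i ∈ O.nonunits := by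
  let φ := (aeval x : MvPolynomial σ k →ₐ[k] K)
  obtain ⟨O, h1, h2⟩ := Ideal.image_subset_nonunits_valuationSubring (A := φ.range.toSubring)
    ((RingHom.ker (aeval (fun _ => (0 : k)) : MvPolynomial σ k →ₐ[k] k)).map φ.rangeRestrict)
    fun e => by
      obtain ⟨Q, q1, q2⟩ := (Ideal.mem_map_iff_of_surjective _ φ.rangeRestrict_surjective).1
        ((Ideal.eq_top_iff_one _).1 e)
      have h3 := h (Q - 1) (by rw [map_sub, map_one, sub_eq_zero]; exact congrArg Subtype.val q2)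
      rw [map_sub, map_one, RingHom.mem_ker.1 q1, zero_sub, neg_eq_zero] at h3
      exact one_ne_zero h3
  exact ⟨O, fun c => h1 (φ.range.algebraMap_mem c), fun i => h2
    ⟨_, Ideal.mem_map_of_mem _ (RingHom.mem_ker.2 (aeval_X _ i)), aeval_X x i⟩⟩

theorem pen_loc {A σ : Type} [CommRing A] [Algebra k A] (ι₀ : A →ₐ[k] K)
    (i0 : Function.Injective ι₀) (P : Ideal A) [P.IsPrime] {f : Fin q → K} {g : σ → A}
    (hg : Algebra.adjoin k (Set.range g) = ⊤)
    (g1 : ∀ s, ∃ b, ι₀ (g s) = 1 ∨ ι₀ (g s) = (f b)⁻¹ ∨ ι₀ (g s) = f b) {m w : ℕ}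
    (hm : ∀ O : ValuationSubring K, (∀ c : k, algebraMap k K c ∈ O) → {j | f j ∉ O}.ncard ≤ m)
    {T : Finset (Fin q)} {φ : Fin q → A} (t1 : ∀ i ∈ T, φ i ∈ P)
    (t2 : ∀ i ∈ T, ι₀ (φ i) = (f i)⁻¹ ∧ f i ≠ 0) {z : Fin w → A}
    (hz : AlgebraicIndependent k fun t => Ideal.Quotient.mk P (z t)) : T.card + w ≤ m := by
  let R := Localization.AtPrime P
  let ι : R →ₐ[k] K := IsLocalization.liftAlgHom (M := P.primeCompl) (f := ι₀) fun a =>
    IsUnit.mk0 _ fun e => a.2 (by rw [i0 (e.trans (map_zero ι₀).symm)]; exact P.zero_mem)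
  have i1 : ∀ a : A, ι (algebraMap A R a) = ι₀ a := fun a => IsLocalization.lift_eq _ a
  have i2 : Function.Injective ι := (IsLocalization.lift_injective_iff _).2 fun a b =>
    ⟨fun e => (i1 a).symm.trans ((congrArg ι e).trans (i1 b)), fun e => congrArg _ (i0 e)⟩
  let ρ : R →ₐ[k] P.ResidueField := IsScalarTower.toAlgHom k R _
  have r0 : ∀ a ∈ P, ρ (algebraMap A R a) = 0 := fun a ha =>
    Ideal.algebraMap_residueField_eq_zero.2 ha
  obtain ⟨v, v1, v2⟩ := pen_sel (hz.map' (f := IsScalarTower.toAlgHom k _ P.ResidueField)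
    P.injective_algebraMap_quotient_residueField) (ρ '' {x | ∃ j, ι x = (f j)⁻¹}) fun L hL i => by
      refine (hg.ge.trans (Algebra.adjoin_le ?_) : ⊤ ≤ L.toSubalgebra.comap
        (ρ.comp (IsScalarTower.toAlgHom k A R))) (Algebra.mem_top (x := z i))
      rintro _ ⟨s, rfl⟩
      change ρ (algebraMap A R (g s)) ∈ L
      obtain ⟨b, h1 | h1 | h1⟩ := g1 s
      · rw [i0 (h1.trans (map_one ι₀).symm), map_one, map_one]
        exact L.one_mem
      · exact hL ⟨_, ⟨b, (i1 _).trans h1⟩, rfl⟩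
      · by_cases h2 : g s ∈ P
        · rw [r0 _ h2]
          exact L.zero_mem
        · obtain ⟨u, hu⟩ := (IsLocalization.map_units R (⟨_, h2⟩ : P.primeCompl)).exists_right_inv
          have h3 := congrArg ρ hu
          have h4 := congrArg ι hu
          rw [map_mul, map_one] at h3 h4
          rw [eq_inv_of_mul_eq_one_left h3]
          exact inv_mem (hL ⟨u, ⟨b, (eq_inv_of_mul_eq_one_right h4).trans
            (congrArg _ ((i1 _).trans h1))⟩, rfl⟩)
  choose x x1 x2 using v2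
  choose j hj using x1
  let X' : T ⊕ Fin w → R := Sum.elim (fun i => algebraMap A R (φ i)) x
  let J : T ⊕ Fin w → Fin q := Sum.elim (↑) j
  have e1 : ∀ s, ι (X' s) = (f (J s))⁻¹ := by
    rintro (s | s)
    exacts [(i1 _).trans (t2 _ s.2).1, hj s]
  have e2 : ∀ s, ρ (X' s) = Sum.elim (fun _ => 0) v s := by
    rintro (s | s)
    exacts [r0 _ (t1 _ s.2), x2 s]
  have e3 : ∀ s, f (J s) ≠ 0 := by
    rintro (s | s)
    · exact (t2 _ s.2).2
    · intro e
      refine v1.ne_zero s ?_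
      rw [← x2 s, i2 ((hj s).trans ((congrArg _ e).trans (inv_zero.trans (map_zero ι).symm))),
        map_zero]
  have e4 : Function.Injective J := fun s t e => by
    have h1 : Sum.elim (fun _ => 0) v s = Sum.elim (fun _ => 0) v t := by
      rw [← e2, ← e2, i2 ((e1 s).trans (e ▸ (e1 t).symm))]
    rcases s with s | s <;> rcases t with t | t
    · exact congrArg _ (Subtype.ext e)
    · exact absurd h1.symm (v1.ne_zero t)
    · exact absurd h1 (v1.ne_zero s)
    · exact congrArg _ (v1.injective h1)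
  obtain ⟨O, o1, o2⟩ := pen_val (k := k) (fun s => ι (X' s)) fun Q hQ => by
    have h1 : aeval X' Q = 0 := i2 (by rw [← AlgHom.comp_apply, comp_aeval, hQ, map_zero])
    have h2 : ∀ {L : Type} [Field L] [Algebra k L] (g : Fin w → L),
        aeval g (aeval (Sum.elim (fun _ => 0) X : _ → MvPolynomial (Fin w) k) Q) =
          aeval (Sum.elim (fun _ => 0) g) Q := fun g => by
      rw [← AlgHom.comp_apply, comp_aeval]
      congr 2
      funext s
      cases s <;> simp
    have h3 := congrArg ρ h1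
    rw [← AlgHom.comp_apply, comp_aeval, funext e2, ← h2, map_zero] at h3
    have h4 := h2 fun _ => (0 : k)
    rw [v1.eq_zero_of_aeval_eq_zero _ h3, map_zero] at h4
    refine Eq.trans ?_ h4.symm
    congr 2
    funext s
    cases s <;> rfl
  have h5 : ∀ s ∈ Set.univ, J s ∈ {j | f j ∉ O} := fun s _ hs => by
    have h6 := o2 s
    rw [e1, ValuationSubring.mem_nonunits_iff, map_inv₀,
      inv_lt_one₀ (zero_lt_iff.2 ((map_ne_zero _).2 (e3 s)))] at h6
    exact h6.not_ge ((O.valuation_le_one_iff _).2 hs)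
  simpa using (Set.ncard_le_ncard_of_injOn J h5 e4.injOn (Set.toFinite _)).trans (hm O o1)

/-- If `m` independent functions exist, any `m` of the divisors meet properly. -/
theorem pen_idx {f : Fin q → K} {m : ℕ} (hK : adjoin k (Set.range (pb f)) = ⊤)
    (hm : ∀ O : ValuationSubring K, (∀ c : k, algebraMap k K c ∈ O) → {j | f j ∉ O}.ncard ≤ m)
    {z : Fin m → K} (hz : AlgebraicIndependent k z) : Idx k (pb f) pd (fun _ => 1) m := by
  intro ε hε φ hφ T hT
  by_contra hlt
  rw [not_le] at hlt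
  obtain ⟨n, hn⟩ := ENat.ne_top_iff_exists.1 hlt.ne_top
  obtain ⟨P, _, hP, hPn⟩ := Ideal.exists_isPrime_height_eq hn.symm
  rw [← hn, Nat.cast_lt] at hlt
  obtain ⟨w, rfl⟩ : ∃ w, m = w + n := ⟨m - n, by omega⟩
  have g0 : ∀ s, pb f s / pb f (s.1, ε s.1) ∈ chart k (pb f) ε :=
    fun s => Algebra.subset_adjoin ⟨s, rfl⟩
  obtain ⟨y, y1, y2⟩ := pen_sel hz (chart k (pb f) ε) fun L hL i => by
    refine (hK.ge.trans (adjoin_le_iff.2 ?_) : ⊤ ≤ L) mem_top
    rintro _ ⟨s, rfl⟩
    have h1 := div_mem (hL (g0 s)) (hL (g0 (s.1, 0)))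
    rwa [div_div_div_cancel_right₀ (hε _), show pb f (s.1, 0) = 1 from rfl, div_one] at h1
  have : Algebra.FiniteType k (chart k (pb f) ε) :=
    (Subalgebra.fg_iff_finiteType _).1 (Subalgebra.fg_def.2 ⟨_, Set.finite_range _, rfl⟩)
  obtain ⟨z', hz'⟩ := pen_dim (k := k) n P hPn.le (z := fun i => ⟨y i, y2 i⟩)
    (AlgebraicIndependent.of_comp (chart k (pb f) ε).val y1)
  have t1 : ∀ i ∈ T, φ i ∈ P := fun i hi => hP (Ideal.subset_span ⟨i, hi, rfl⟩)
  have := pen_loc (chart k (pb f) ε).val Subtype.val_injective P (g := fun s => ⟨_, g0 s⟩)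
    (Subalgebra.map_injective (f := (chart k (pb f) ε).val) Subtype.val_injective (by
      rw [AlgHom.map_adjoin, ← Set.range_comp, Algebra.map_top, Subalgebra.range_val]
      rfl)) (fun s => ⟨s.1, ?_⟩) hm t1 (fun i hi => ?_) hz'
  · omega
  · obtain ⟨b, a⟩ := s
    have h2 := hε b
    change pb f (b, a) / pb f (b, ε b) = 1 ∨ pb f (b, a) / pb f (b, ε b) = (f b)⁻¹ ∨
      pb f (b, a) / pb f (b, ε b) = f b
    generalize ε b = c at h2
    fin_cases a <;> fin_cases c <;> simp_all [pb]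
  · have h1 := hφ i
    have h2 := hε i
    rw [pen_prod (fun b => pb f (b, ε b)), one_div] at h1
    generalize hc : ε i = c at h1 h2
    fin_cases c
    · refine absurd (t1 i hi) ?_
      rw [show φ i = 1 from Subtype.ext (h1.trans inv_one)]
      exact P.primeCompl.one_mem
    · exact ⟨h1, h2⟩

theorem pen_rk (F : IntermediateField k K) {R N : ℕ} (ξ : Fin R × Fin N → K)
    (d : Fin q → Fin R → ℕ) (T : Finset (Fin q)) : rk F ξ d T ≤ Algebra.trdeg k K :=
  (trdeg_le_of_injective (adjoin F (rt ξ d T)).val Subtype.val_injective).trans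
    (le_add_self.trans (trdeg_add_le (R := k) (S := F) (A := K)))

theorem pen_ind {m : ℕ} (h : m ≤ Algebra.trdeg k K) :
    ∃ z : Fin m → K, AlgebraicIndependent (adjoin k (Set.range fun _ : Fin 1 => (1 : K))) z := by
  obtain ⟨s, hs⟩ := exists_isTranscendenceBasis k K
  rw [← hs.cardinalMk_eq_trdeg, ← Cardinal.mk_fin m] at h
  obtain ⟨e⟩ := (Cardinal.le_def _ _).1 h
  have : Algebra.IsAlgebraic k (adjoin k (Set.range fun _ : Fin 1 => (1 : K))) :=
    isAlgebraic_adjoin fun _ ⟨_, e⟩ => e ▸ isIntegral_one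
  exact ⟨_, (hs.1.comp e e.injective).extendScalars _⟩

/-- Passage to the field generated by the functions. -/
theorem pen_sub {f : Fin q → K} {m : ℕ}
    (hm : ∀ O : ValuationSubring K, (∀ c : k, algebraMap k K c ∈ O) → {j | f j ∉ O}.ncard ≤ m) :
    ∃ g : Fin q → adjoin k (Set.range f), (∀ j, g j = f j) ∧ adjoin k (Set.range g) = ⊤ ∧
      (∀ P : MvPolynomial (Fin q) k, aeval f P = 0 ↔ aeval g P = 0) ∧
      ∀ O : ValuationSubring (adjoin k (Set.range f)), (∀ c : k, algebraMap k _ c ∈ O) →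
        {j | g j ∉ O}.ncard ≤ m := by
  let g : Fin q → adjoin k (Set.range f) := fun j => ⟨f j, subset_adjoin k _ ⟨j, rfl⟩⟩
  refine ⟨g, fun _ => rfl, IntermediateField.map_injective (adjoin k (Set.range f)).val ?_,
    fun P => ?_, fun O hO => ?_⟩
  · rw [adjoin_map, ← Set.range_comp, ← AlgHom.fieldRange_eq_map, fieldRange_val]
    rfl
  · rw [← map_eq_zero_iff (adjoin k (Set.range f)).val Subtype.val_injective, ← AlgHom.comp_apply,
      comp_aeval]
    rfl
  · obtain ⟨A, h1, h2⟩ := IsLocalRing.exists_factor_valuationRing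
      ((adjoin k (Set.range f)).val.toRingHom.comp O.subtype)
    refine (Set.ncard_le_ncard (t := {j | f j ∉ A}) (fun j h3 hA => ?_) (Set.toFinite _)).trans
      (hm A fun c => h1 ⟨_, hO c⟩)
    have h4 := (O.mem_or_inv_mem _).resolve_left h3
    have h0 : g j ≠ 0 := fun e => h3 (e ▸ O.zero_mem)
    have h6 : (((g j)⁻¹ * g j : adjoin k (Set.range f)) : K) = 1 := by
      rw [inv_mul_cancel₀ h0]
      rfl
    obtain ⟨u, hu⟩ :=
      (h2.1 ⟨_, h4⟩ (IsUnit.of_mul_eq_one ⟨f j, hA⟩ (Subtype.ext h6))).exists_right_inv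
    have h5 : (g j)⁻¹ * u = 1 := congrArg Subtype.val hu
    exact h3 ((inv_mul_eq_one₀ h0).1 h5 ▸ u.2)

end Pool.Agent.Lib.MP_651af7_nt.Am6
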