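import Pool.Agent.Lib.MP_651af7_nt.Am5.Real

/-! The choice of the weights for divisors that need not be big. -/

namespace Pool.Agent.Lib.MP_651af7_nt.Am6

open Finset Am2 Am3 Am5

variable {R q n : ℕ} {T : Type} [Fintype T] {c : T → ℝ} {κ : T → Fin R → ℕ}

variable (c κ) in
/-- The volume is at least a product of weights. -/
def Lo (d : Fin q → Fin R → ℝ) (jj : Fin n → Fin q) : Prop :=
  ∀ a : Fin q → ℝ, (∀ i, 0 < a i) →
    ∏ i, a (jj i) ≤ (n : ℝ) ^ n * Hh c κ fun b => ∑ i, a i * d i b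

theorem opt6 (hκ : ∀ τ, ∑ b, κ τ b = n) {d : Fin q → Fin R → ℝ} (hq : 0 < q)
    (g0 : ∃ jj : Fin n → Fin q, Lo c κ d jj) (g1 : 0 < n → ∀ t : Fin q → ℝ,
      ∃ jj : Fin n → Fin q, Lo c κ d jj ∧
        ∀ j₀ j₁, n * ∑ j, t j + t j₁ ≤ q * ∑ i, t (jj i) + t j₀) :
    ∃ a : Fin q → ℝ, (∀ j, 0 < a j) ∧ 0 < Hh c κ (fun b => ∑ i, a i * d i b) ∧
      ∀ j (u : ℝ), u < 1 → (1 - u) ^ n * Hh c κ (fun b => ∑ i, a i * d i b) ^ q ≤
        Hh c κ (fun b => ∑ i, a i * d i b - u * a j * d j b) ^ q := by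
  have hp : ∀ a : Fin q → ℝ, (∀ i, 0 < a i) → 0 < Hh c κ fun b => ∑ i, a i * d i b :=
    fun a h => g0.elim fun jj k => lt_of_not_ge fun e => ((prod_pos fun i _ => h _).trans_le
      (k a h)).not_ge (mul_nonpos_of_nonneg_of_nonpos (by positivity) e)
  rcases n.eq_zero_or_pos with rfl | hn
  · refine ⟨fun _ => 1, fun _ => one_pos, hp _ fun _ => one_pos, fun j u _ => le_of_eq ?_⟩
    have e : ∀ τ b, κ τ b = 0 := fun τ b => sum_eq_zero_iff.1 (hκ τ) b (mem_univ b)
    simp [Hh, e]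
  let f : (Fin q → ℝ) → ℝ := fun a => (∏ i, a i) ^ n / Hh c κ (fun b => ∑ i, a i * d i b) ^ q
  have hs : ∀ a : Fin q → ℝ, (∀ i, 0 < a i) →
      ∃ a' ∈ stdSimplex ℝ (Fin q), (∀ i, 0 < a' i) ∧ f a' = f a := fun a h => by
    have h0 : 0 < ∑ i, a i := sum_pos (fun i _ => h i) ⟨⟨0, hq⟩, mem_univ _⟩
    refine ⟨fun i => (∑ i, a i)⁻¹ * a i, ⟨fun i => mul_nonneg (inv_nonneg.2 h0.le) (h i).le, by
      rw [← mul_sum, inv_mul_cancel₀ h0.ne']⟩, fun i => mul_pos (inv_pos.2 h0) (h i), ?_⟩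
    simp only [f, mul_assoc, ← mul_sum, Hh_smul c hκ, prod_mul_distrib, prod_const, card_univ,
      Fintype.card_fin, mul_pow, ← pow_mul, mul_comm q n]
    exact mul_div_mul_left _ _ (pow_ne_zero _ (inv_ne_zero h0.ne'))
  obtain ⟨M, hM⟩ : ∃ M : ℝ, M = q * ((n : ℝ) ^ n) ^ q := ⟨_, rfl⟩
  have M0 : 0 < M := by rw [hM]; positivity
  have hb : ∀ a ∈ stdSimplex ℝ (Fin q), (∀ i, 0 < a i) → ∀ j, f a ≤ M * a j := fun a a1 h j => by
    obtain ⟨jj, k1, k2⟩ := g1 hn fun i => Real.log (a i)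
    have k3 := prod_pos fun i (_ : i ∈ univ) => h i
    have k4 := prod_pos fun i (_ : i ∈ univ) => h (jj i)
    have k5 := sum_le_sum fun i (_ : i ∈ univ) => show (∏ i, a i) ^ n * a i ≤
        ((n : ℝ) ^ n * Hh c κ fun b => ∑ i, a i * d i b) ^ q * a j from by
      refine le_trans ?_ (mul_le_mul_of_nonneg_right (pow_le_pow_left₀ k4.le (k1 a h) q) (h j).le)
      rw [← Real.log_le_log_iff (mul_pos (pow_pos k3 _) (h i)) (mul_pos (pow_pos k4 _) (h j)),
        Real.log_mul (pow_pos k3 _).ne' (h i).ne', Real.log_mul (pow_pos k4 _).ne' (h j).ne',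
        Real.log_pow, Real.log_pow, Real.log_prod fun i _ => (h i).ne',
        Real.log_prod fun i _ => (h _).ne']
      exact k2 j i
    rw [← mul_sum, a1.2, mul_one, sum_const, card_univ, Fintype.card_fin, nsmul_eq_mul,
      mul_pow] at k5
    rw [div_le_iff₀ (pow_pos (hp a h) q), hM]
    linarith
  obtain ⟨o, o1, o2, -⟩ := hs (fun _ => 1) fun _ => one_pos
  have o3 : 0 < f o / M :=
    div_pos (div_pos (pow_pos (prod_pos fun i _ => o2 i) _) (pow_pos (hp o o2) _)) M0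
  obtain ⟨a, a1, a2⟩ := ((isCompact_stdSimplex ℝ (Fin q)).inter_right
    (isClosed_Ici (a := fun _ => f o / M))).exists_isMaxOn
    ⟨o, o1, fun j => (div_le_iff₀' M0).2 (hb o o1 o2 j)⟩ (f := f)
    (ContinuousOn.div (by fun_prop) (((Hh_cont c κ).comp (by fun_prop)).pow q).continuousOn
      fun a h => (pow_pos (hp a fun i => o3.trans_le (h.2 i)) _).ne')
  have a4 : ∀ j, 0 < a j := fun j => o3.trans_le (a1.2 j)
  have a3 := hp a a4
  refine ⟨a, a4, a3, fun j u hu => ?_⟩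
  have h1 : ∀ i, 0 < Function.update a j ((1 - u) * a j) i := fun i => by
    rcases eq_or_ne i j with rfl | e
    · simpa using mul_pos (sub_pos.2 hu) (a4 i)
    · simpa [e] using a4 i
  obtain ⟨a', k1, k0, k2⟩ := hs _ h1
  have k3 : f a' ≤ f a := by
    by_cases k : ∀ i, f o / M ≤ a' i
    · exact a2 ⟨k1, k⟩
    · obtain ⟨i, k⟩ := not_forall.1 k
      exact ((hb a' k1 k0 i).trans ((lt_div_iff₀' M0).1 (not_le.1 k)).le).trans
        (a2 ⟨o1, fun j => (div_le_iff₀' M0).2 (hb o o1 o2 j)⟩)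
  have e1 : (fun b => ∑ i, Function.update a j ((1 - u) * a j) i * d i b) =
      fun b => ∑ i, a i * d i b - u * a j * d j b := funext fun b => by
    rw [← add_sum_erase _ _ (mem_univ j), ← add_sum_erase _ _ (mem_univ j), Function.update_self,
      sum_congr rfl fun i hi => by rw [Function.update_of_ne (ne_of_mem_erase hi)]]
    ring
  have k4 := hp _ h1
  have e2 : ∏ i, Function.update a j ((1 - u) * a j) i = (1 - u) * ∏ i, a i := by
    rw [prod_update_of_mem (mem_univ j), mul_assoc, ← mul_prod_erase _ _ (mem_univ j),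
      sdiff_singleton_eq_erase]
  rw [k2] at k3
  simp only [f] at k3
  rw [e1] at k3 k4
  rw [e2, div_le_div_iff₀ (pow_pos k4 _) (pow_pos a3 _), mul_pow, mul_right_comm,
    mul_comm ((∏ i, a i) ^ n)] at k3
  exact le_of_mul_le_mul_right k3 (pow_pos (prod_pos fun i _ => a4 i) _)

theorem quad6 {p : Polynomial ℝ} (p2 : p.natDegree < n + 1) (p3 : ∀ i, 0 ≤ p.coeff i) {e : ℝ}
    (he : 0 < e) (h : ∀ u : ℝ, 1 ≤ u → e * u ^ 2 ≤ p.eval u) :
    ∃ i ∈ range (n + 1), 2 ≤ i ∧ 0 < p.coeff i := by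
  by_contra k
  obtain ⟨s, hs⟩ : ∃ s, s = ∑ i ∈ range (n + 1), p.coeff i := ⟨_, rfl⟩
  have s0 : 0 ≤ s := hs ▸ sum_nonneg fun i _ => p3 i
  have u1 : 1 ≤ s / e + 1 := le_add_of_nonneg_left (by positivity)
  have k1 := h _ u1
  have k2 : e * (s / e + 1) = s + e := by field_simp
  generalize s / e + 1 = u at *
  have k3 : p.eval u ≤ s * u := by
    rw [Polynomial.eval_eq_sum_range' p2, hs, sum_mul]
    refine sum_le_sum fun i hi => ?_
    rcases lt_or_ge i 2 with h2 | h2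
    · exact mul_le_mul_of_nonneg_left ((pow_le_pow_right₀ u1 (by omega)).trans_eq (pow_one u))
        (p3 i)
    · rw [le_antisymm (not_lt.1 fun h3 => k ⟨i, hi, h2, h3⟩) (p3 i), zero_mul, zero_mul]
  nlinarith

theorem one7 {Q : ℝ → ℝ} (hQ : ConvexOn ℝ (Set.Ici 0) Q) {A γ : ℝ} (g1 : 1 ≤ γ)
    (h : ∀ u, 0 < u → u < 1 → Q 1 - Q (1 - u) ≤ A * (u / (1 - u))) (h0 : 0 < 2 * γ * Q 1 -
      4 * γ ^ 2 * A + (4 * γ - 1) * (Q 1 - 2 * Q (3 / 4) + Q (1 / 2))) :
    ∀ᶠ r : ℕ in Filter.atTop, 2 * γ * Q 1 < Q (1 - 1 / (2 * r)) -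
      r * (Q 1 - Q (1 - 1 / (2 * r))) / 2 + (4 * γ - 1) * Q (1 - (r + 1) / (2 * r)) -
        (4 * γ - 1) ^ 2 * r * (Q (1 - r / (2 * r)) - Q (1 - (r + 1) / (2 * r))) / 2 := by
  filter_upwards [Filter.eventually_ge_atTop 3, (tendsto_natCast_atTop_atTop (R := ℝ)
    |>.atTop_mul_const h0).eventually_gt_atTop ((4 * γ + 4 * γ ^ 2) * |A|)] with r r3 hr
  have r0 : (3 : ℝ) ≤ r := by exact_mod_cast r3
  obtain ⟨u, hu⟩ : ∃ u : ℝ, u = 1 / (2 * r) := ⟨_, rfl⟩
  have u0 : 0 < u := by rw [hu]; positivity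
  have u1 : 2 * r * u = 1 := by rw [hu]; field_simp
  have u2 : u < 1 / 4 := by nlinarith
  rw [show (r + 1 : ℝ) / (2 * r) = 1 / 2 + u by rw [hu]; field_simp,
    show (r : ℝ) / (2 * r) = 1 / 2 by field_simp, ← hu, show (1 : ℝ) - 1 / 2 = 1 / 2 by norm_num,
    show 1 - (1 / 2 + u) = 1 / 2 - u by ring]
  have k1 := h u u0 (by linarith)
  have k2 := (hQ.slope_mono_adjacent (x := 1 / 2 - u) (y := 1 / 2) (z := 1 - u)
    (by simp; linarith) (by simp; linarith) (by linarith) (by linarith)).trans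
    (hQ.slope_mono_adjacent (x := 1 / 2) (y := 1 - u) (z := 1) (by simp) (by simp) (by linarith)
      (by linarith))
  have k3 := hQ.secant_mono_aux3 (x := 3 / 4) (y := 1 - u) (z := 1) (by norm_num) (by simp)
    (by linarith) (by linarith)
  rw [sub_sub_cancel, sub_sub_cancel, div_le_div_iff_of_pos_right u0] at k2
  rw [sub_sub_cancel, le_div_iff₀ u0] at k3
  have k4 : u / (1 - u) = 1 / (2 * r - 1) := by
    rw [div_eq_div_iff (by linarith) (by linarith)]
    linarith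
  rw [k4, mul_one_div, le_div_iff₀ (by linarith)] at k1
  have k5 : 2 * (Q 1 - Q (3 / 4)) ≤ r * (Q 1 - Q (1 - u)) := by
    have := mul_le_mul_of_nonneg_left k3 (Nat.cast_nonneg r)
    linear_combination this - 2 * (Q 1 - Q (3 / 4)) * u1
  have k6 := mul_le_mul_of_nonneg_left k2 (Nat.cast_nonneg r)
  have c0 : 0 < 4 * γ + 4 * γ ^ 2 := by positivity
  have k7 : (4 * γ + 4 * γ ^ 2) * (Q 1 - Q (1 - u)) < 2 * γ * Q 1 - 4 * γ ^ 2 * A +
      (4 * γ - 1) * (Q 1 - 2 * Q (3 / 4) + Q (1 / 2)) := by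
    refine lt_of_not_ge fun h => ?_
    have k8 := mul_le_mul_of_nonneg_left h (Nat.cast_nonneg r)
    have k9 := mul_nonneg (h0.le.trans h) (show (0 : ℝ) ≤ r - 1 by linarith)
    have k10 := mul_le_mul_of_nonneg_left (k1.trans (le_abs_self A)) c0.le
    linarith
  have x0 : 0 ≤ 4 * γ - 1 := by linarith
  linarith [mul_le_mul_of_nonneg_left k2 x0, mul_le_mul_of_nonneg_left k6 (sq_nonneg (4 * γ - 1)),
    mul_le_mul_of_nonneg_left k5 x0, mul_le_mul_of_nonneg_left k1 (sq_nonneg γ)]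

theorem real6 (hc : ∀ τ, 0 < c τ) (hκ : ∀ τ, ∑ b, κ τ b = n) {d : Fin q → Fin R → ℝ}
    (hd : ∀ j b, 0 ≤ d j b) (hq : 0 < q) {s m : ℕ} (s0 : 0 < s) (sm : s ≤ m)
    (g0 : ∃ jj : Fin n → Fin q, Lo c κ d jj) (g1 : 0 < n → ∀ t : Fin q → ℝ,
      ∃ jj : Fin n → Fin q, Lo c κ d jj ∧
        ∀ j₀ j₁, n * ∑ j, t j + t j₁ ≤ q * ∑ i, t (jj i) + t j₀)
    (g2 : 2 * m * n < s * q ∨ 2 * m * n = s * q ∧ ∀ j, ∃ jj : Fin n → Fin q, Lo c κ d jj ∧
      ∃ i i', i ≠ i' ∧ jj i = j ∧ jj i' = j) :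
    ∃ (r X : ℕ) (θ : Fin q → ℝ), 0 < r ∧ (∀ j, 0 < θ j) ∧ ∀ (P : Fin q → ℝ → ℝ),
      (∀ j s, P j s = Hh c κ fun b => ∑ i, 2 * r * θ i * d i b - s * θ j * d j b) → ∀ j,
      2 * m * r * P j 0 < s * (r * (P j 1 - r * (P j 0 - P j 1) / 2) + X * P j (r + 1) -
        X ^ 2 * (P j r - P j (r + 1)) / 2) := by
  obtain ⟨a, a1, a2, a3⟩ := opt6 hκ hq g0 g1
  have h3 : ∀ j b, a j * d j b ≤ ∑ i, a i * d i b := fun j b => single_le_sum
    (f := fun i => a i * d i b) (fun i _ => mul_nonneg (a1 i).le (hd i b)) (mem_univ j)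
  choose p p1 p2 p3 p4 using fun j => jen_poly hc hκ (w := fun b => ∑ i, a i * d i b - a j * d j b)
    (d := fun b => a j * d j b) (fun b => mul_nonneg (a1 j).le (hd j b)) fun b => sub_nonneg.2 (h3 j b)
  have e1 : ∀ j u, (p j).eval (1 - u) = Hh c κ fun b => ∑ i, a i * d i b - u * a j * d j b :=
    fun j u => (p1 j _).trans (congrArg _ (funext fun b => by
      simp only [Pi.add_apply, Pi.smul_apply, smul_eq_mul]
      ring))
  have e2 : ∀ j, (p j).eval 1 = Hh c κ fun b => ∑ i, a i * d i b := fun j => by simpa using e1 j 0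
  have e3 := fun j => funext (Polynomial.eval_eq_sum_range' (p2 j))
  have q0 : (0 : ℝ) < q := by exact_mod_cast hq
  have s1 : (0 : ℝ) < s := by exact_mod_cast s0
  obtain ⟨γ, hγ⟩ : ∃ γ : ℝ, γ = m / s := ⟨_, rfl⟩
  have γ1 : 1 ≤ γ := hγ ▸ (one_le_div s1).2 (Nat.cast_le.2 sm)
  have γ2 : γ * (n / q) = m * n / (s * q) := by rw [hγ, div_mul_div_comm]
  obtain ⟨r, r1, r2⟩ := (((Filter.tendsto_id.const_mul_atTop' s0).eventually
    (Filter.eventually_all.2 fun j => one7 (Q := fun s => (p j).eval s)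
    (A := n / q * (p j).eval 1) (γ := γ) (by
      rw [e3]
      refine ⟨convex_Ici 0, fun x hx y hy s t hs ht e => ?_⟩
      simp only [smul_eq_mul, mul_sum, ← sum_add_distrib, mul_left_comm _ ((p j).coeff _), ← mul_add]
      exact sum_le_sum fun i _ => mul_le_mul_of_nonneg_left ((convexOn_pow i).2 hx hy hs ht e)
        (p3 j i)) γ1 (fun u u0 u1 => by
      rw [e1, e2]
      refine mo_root hq a2.le (Hp_nonneg hc fun b => ?_) u1 (a3 j u u1)
      nlinarith [h3 j b, mul_nonneg (a1 j).le (hd j b)]) (by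
      have k0 : (1 / 2 : ℝ) • (1 : ℝ) + (1 / 2 : ℝ) • (1 / 2 : ℝ) = 3 / 4 := by norm_num
      have k1 : ∀ i ∈ range (n + 1), 0 ≤ (p j).coeff i * (1 ^ i - 2 * (3 / 4) ^ i + (1 / 2) ^ i) :=
        fun i _ => mul_nonneg (p3 j i) (by
          have := (convexOn_pow (𝕜 := ℝ) i).2 (x := 1) (y := 1 / 2) (by simp) (by simp)
            one_half_pos.le one_half_pos.le (add_halves 1)
          rw [k0] at this
          simp only [smul_eq_mul] at this
          linarith)
      have k2 : (p j).eval 1 - 2 * (p j).eval (3 / 4) + (p j).eval (1 / 2) = ∑ i ∈ range (n + 1),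
          (p j).coeff i * (1 ^ i - 2 * (3 / 4) ^ i + (1 / 2) ^ i) := by
        simp only [Polynomial.eval_eq_sum_range' (p2 j), mul_sum, ← sum_sub_distrib,
          ← sum_add_distrib]
        exact sum_congr rfl fun i _ => by ring
      have k3 := mul_pos (one_pos.trans_le γ1) ((e2 j).symm ▸ a2)
      have x0 : 0 < 4 * γ - 1 := by linarith
      rw [k2]
      rcases g2 with h | ⟨h, g2⟩
      · have k4 : γ * (n / q) < 1 / 2 := by
          rw [γ2, div_lt_div_iff₀ (mul_pos s1 q0) two_pos]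
          exact_mod_cast (by linarith : m * n * 2 < 1 * (s * q))
        linarith [mul_nonneg x0.le (sum_nonneg k1), mul_lt_mul_of_pos_left k4 k3]
      · have k4 : γ * (n / q) ≤ 1 / 2 := by
          rw [γ2, div_le_div_iff₀ (mul_pos s1 q0) two_pos]
          exact_mod_cast (by linarith : m * n * 2 ≤ 1 * (s * q))
        obtain ⟨jj, l1, i, i', l2, l3, l4⟩ := g2 j
        have n0 : (0 : ℝ) < (n : ℝ) ^ n := pow_pos (Nat.cast_pos.2 i.pos) _
        obtain ⟨m, m1, m2, k6⟩ := quad6 (p2 j) (p3 j) (div_pos (prod_pos fun l (_ : l ∈ univ) =>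
          a1 (jj l)) n0) fun u u1 => by
            have u0 := one_pos.trans_le u1
            have l5 := l1 (fun l => (if l = j then u else 1) * a l) fun l =>
              mul_pos (by split_ifs; exacts [u0, one_pos]) (a1 l)
            rw [div_mul_eq_mul_div, div_le_iff₀' n0, ← sub_sub_cancel 1 u, e1, sub_sub_cancel]
            refine le_trans ?_ (l5.trans_eq (congrArg _ (congrArg _ (funext fun b => ?_))))
            · rw [prod_mul_distrib, mul_comm]
              refine mul_le_mul_of_nonneg_right (le_trans (le_of_eq ?_)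
                (prod_le_prod_of_subset_of_one_le (subset_univ {i, i'}) (fun l _ => ?_)
                  fun l _ _ => ?_)) (prod_nonneg fun l _ => (a1 _).le)
              · rw [prod_pair l2, if_pos l3, if_pos l4, sq]
              · split_ifs
                exacts [u0.le, zero_le_one]
              · split_ifs
                exacts [u1, le_rfl]
            · rw [← add_sum_erase _ _ (mem_univ j), ← add_sum_erase _ _ (mem_univ j), if_pos rfl,
                sum_congr rfl fun l hl => by rw [if_neg (ne_of_mem_erase hl), one_mul]]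
              ring
        have k5 := (strictConvexOn_pow m2).2 (x := 1) (y := 1 / 2) (by simp) (by simp) (by norm_num)
          one_half_pos one_half_pos (add_halves 1)
        rw [k0] at k5
        simp only [smul_eq_mul] at k5
        have k7 := (mul_pos k6 (show 0 < (1 : ℝ) ^ m - 2 * (3 / 4) ^ m + (1 / 2) ^ m by
          linarith)).trans_le (single_le_sum k1 m1)
        linarith [mul_pos x0 k7, mul_le_mul_of_nonneg_left k4 k3.le]))).and
    (Filter.eventually_gt_atTop 0)).exists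
  obtain ⟨X, hX⟩ : ∃ X : ℕ, (X : ℝ) = (4 * γ - 1) * (s * r : ℕ) := ⟨(4 * m - s) * r, by
    rw [hγ, Nat.cast_mul, Nat.cast_sub (by omega)]
    push_cast
    field_simp⟩
  replace r2 := mul_pos s0 r2
  simp only [id] at r1
  generalize s * r = r at r1 r2 hX
  have r0 : (0 : ℝ) < r := by exact_mod_cast r2
  refine ⟨r, X, fun j => a j / (2 * r), r2, fun j => div_pos (a1 j) (by positivity),
    fun P hP j => ?_⟩
  have e4 : ∀ s, P j s = (p j).eval (1 - s / (2 * r)) := fun s => by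
    rw [hP, e1]
    refine congrArg _ (funext fun b => ?_)
    rw [sum_congr rfl fun i _ => by rw [mul_div_cancel₀ _ (by positivity)]]
    ring
  have e5 := mul_lt_mul_of_pos_left (r1 j) (mul_pos s1 r0)
  simp only [e4, zero_div, sub_zero, hX, (eq_div_iff s1.ne').1 hγ |>.symm]
  linarith

end Pool.Agent.Lib.MP_651af7_nt.Am6
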