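import Pool.Agent.Lib.MP_651af7_nt.Am6.Main
import Pool.Agent.Lib.MP_651af7_nt.Am6.Meet

/-! Reduction to a minimal set of divisors. -/

namespace Pool.Agent.Lib.MP_651af7_nt.Am6

open Height MvPolynomial NumberField IntermediateField Ds Am

theorem rt_map {K : Type} [Field K] {R N p q : ℕ} (ξ : Fin R × Fin N → K) (d : Fin q → Fin R → ℕ)
    (e : Fin p ↪ Fin q) (T : Finset (Fin p)) : rt ξ (fun j => d (e j)) T = rt ξ d (T.map e) :=
  Set.ext fun z => by simp [rt]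

theorem idx_map {F K : Type} [Field F] [Field K] [Algebra F K] {R N p q s : ℕ}
    {ξ : Fin R × Fin N → K} {u : Fin q → K} {d : Fin q → Fin R → ℕ} (hh : ∀ j, u j ∈ bm F ξ (d j))
    (hP : Idx F ξ d u s) (e : Fin p ↪ Fin q) :
    Idx F ξ (fun j => d (e j)) (fun j => u (e j)) s := by
  intro ε hε φ hφ T
  have k := hP ε hε (fun j => ⟨_, nev_div (hh j) ε⟩) (fun _ => rfl) (T.map e)
  rw [Finset.card_map, Finset.coe_map, ← Set.image_comp] at k
  obtain rfl : φ = fun j => ⟨_, nev_div (hh (e j)) ε⟩ := funext fun j => Subtype.ext (hφ j)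
  exact k

theorem meet_map {F K : Type} [Field F] [Field K] [Algebra F K] {R N p q s : ℕ}
    {ξ : Fin R × Fin N → K} {u : Fin q → K} {d : Fin q → Fin R → ℕ} (hh : ∀ j, u j ∈ bm F ξ (d j))
    (hP : Meet F ξ d u s) (e : Fin p ↪ Fin q) :
    Meet F ξ (fun j => d (e j)) (fun j => u (e j)) s := by
  intro ε hε φ hφ T
  have k := hP ε hε (fun j => ⟨_, nev_div (hh j) ε⟩) (fun _ => rfl) (T.map e)
  rw [Finset.card_map, Finset.coe_map, ← Set.image_comp] at k
  obtain rfl : φ = fun j => ⟨_, nev_div (hh (e j)) ε⟩ := funext fun j => Subtype.ext (hφ j)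
  exact k

theorem min_set {q l s m : ℕ} (r : Finset (Fin q) → ℕ) (H : Prop) (q0 : 0 < q) (s0 : 0 < s)
    (sm : s ≤ m) (hm : ∃ T, r T + q ≤ l + T.card)
    (h1 : 2 * m * l < s * q ∨ 2 * m * l = s * q ∧ H) : ∃ I : Finset (Fin q), I.Nonempty ∧
      (2 * m * r I < s * I.card ∨ 2 * m * r I = s * I.card ∧ H) ∧
      (∀ T ⊆ I, T.Nonempty → r T < r I → r I * T.card < I.card * r T) ∧
      ((∀ T : Finset (Fin q), T.Nonempty → r T < r Finset.univ →
        r Finset.univ * T.card < q * r T) → I = Finset.univ) := by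
  classical
  obtain ⟨T₀, hT⟩ := hm
  obtain ⟨x, hx⟩ := Nat.exists_eq_add_of_le (T₀.card_le_univ.trans_eq (Fintype.card_fin q))
  have t2 := Nat.mul_le_mul_left (2 * m) (show r T₀ + x ≤ l by omega)
  have t3 := Nat.mul_le_mul_right x sm
  have t4 : s * q = s * T₀.card + s * x := by rw [← mul_add, ← hx]
  have t5 : ∀ a b, a + s * q ≤ 2 * m * l + b → a < b ∨ a = b ∧ H := fun a b k =>
    h1.elim (fun h => .inl (by omega)) fun h => (lt_or_eq_of_le (by omega)).imp_right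
      fun e => ⟨e, h.2⟩
  have t6 := t5 (2 * m * r T₀ + m * x) (s * T₀.card) (by linarith)
  have t1 : T₀.Nonempty := Finset.card_pos.1 (Nat.pos_of_ne_zero fun e => by
    have k := mul_pos (s0.trans_le sm) (show 0 < x by omega)
    rw [e, mul_zero] at t6
    omega)
  by_cases hs : ∀ T : Finset (Fin q), T.Nonempty → r T < r Finset.univ →
      r Finset.univ * T.card < q * r T
  · refine ⟨_, ⟨⟨0, q0⟩, Finset.mem_univ _⟩, ?_, fun T _ => by simpa using hs T, fun _ => rfl⟩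
    rw [Finset.card_univ, Fintype.card_fin]
    rcases lt_or_ge (r T₀) (r Finset.univ) with k | k
    · refine .inl (Nat.lt_of_mul_lt_mul_right (a := T₀.card) ?_)
      have k2 := Nat.mul_lt_mul_of_pos_left (hs T₀ t1 k) (show 0 < 2 * m by omega)
      have k3 := Nat.mul_le_mul_left q (show 2 * m * r T₀ ≤ s * T₀.card by omega)
      linarith
    · exact t5 _ _ (Nat.add_le_add_right (Nat.mul_le_mul_left _ (by omega)) _)
  obtain ⟨I, i1, i2⟩ := Finset.exists_min_image {I : Finset (Fin q) | I.Nonempty ∧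
    (2 * m * r I < s * I.card ∨ 2 * m * r I = s * I.card ∧ H)} Finset.card
    ⟨T₀, Finset.mem_filter.2 ⟨Finset.mem_univ _, t1, t5 _ _ (by linarith [Nat.zero_le (m * x)])⟩⟩
  obtain ⟨-, i3, i4⟩ := Finset.mem_filter.1 i1
  refine ⟨I, i3, i4, fun T t1 t2 t3 => Nat.lt_of_mul_lt_mul_left (a := s) ?_, fun h => (hs h).elim⟩
  have k1 := Finset.card_lt_card (Finset.ssubset_iff_subset_ne.2 ⟨t1, fun e => t3.ne (e ▸ rfl)⟩)
  have k2 : ¬(2 * m * r T < s * T.card ∨ 2 * m * r T = s * T.card ∧ H) := fun k =>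
    (i2 T (Finset.mem_filter.2 ⟨Finset.mem_univ _, t2, k⟩)).not_gt k1
  have k4 : s * T.card ≤ 2 * m * r T := le_of_not_gt fun h => k2 (.inl h)
  rcases i4 with k | ⟨k, k'⟩
  · have k5 := Nat.mul_lt_mul_of_pos_right k (Nat.pos_of_mul_pos_left
      ((mul_pos s0 t2.card_pos).trans_le k4))
    linarith [Nat.mul_le_mul_left (r I) k4]
  · have k5 := Nat.mul_lt_mul_of_pos_left (lt_of_le_of_ne k4 fun h => k2 (.inr ⟨h.symm, k'⟩))
      (show 0 < r I by omega)
    linarith [congrArg (· * r T) k]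

theorem main7 (k : Type) [Field k] [NumberField k] (g R N q l s m : ℕ)
    (J : Ideal (MvPolynomial (Fin g) k)) (K : Type) [Field K] [Algebra k K] (y : Fin g → K)
    (ξ : Fin R × Fin N → K) (D : Nc.Dn J y) (ξ1 : ∀ b, ∃ a, ξ (b, a) ≠ 0)
    (F : IntermediateField k K)
    (hF : F = adjoin k (Set.range y)) (hK : adjoin F (Set.range ξ) = ⊤)
    (U : Fin q → MvPolynomial (Fin g ⊕ Fin R × Fin N) k)
    (hU : ∀ j, aeval (Sum.elim y ξ) (U j) ≠ 0) (d : Fin q → Fin R → ℕ)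
    (hh : ∀ j, aeval (Sum.elim y ξ) (U j) ∈ bm F ξ (d j))
    (hP : Idx F ξ d (fun j => aeval (Sum.elim y ξ) (U j)) s)
    (hQ : Meet F ξ d (fun j => aeval (Sum.elim y ξ) (U j)) m) (s0 : 0 < s) (sm : s ≤ m)
    (hl : rk F ξ d Finset.univ ≤ l ∨ m ≤ l) (q0 : 0 < q)
    (h1 : 2 * m * l < s * q ∨ 2 * m * l = s * q ∧ ∀ j, 2 ≤ rk F ξ d {j}) :
    ∃ I : Finset (Fin q), I.Nonempty ∧
      ((∀ T : Finset (Fin q), T.Nonempty → rk F ξ d T < rk F ξ d Finset.univ →
        rk F ξ d Finset.univ * T.card < q * rk F ξ d T) → I = Finset.univ) ∧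
      ∀ (e : ℕ) (ε : ℝ), (e ≠ 0 → Algebra.IsAlgebraic (adjoin k (rt ξ d I)) K) → 0 < ε →
      ∃ (Θ : MvPolynomial (Fin g ⊕ Fin R × Fin N) k) (c : Fin q → ℕ),
      aeval (Sum.elim y ξ) Θ ≠ 0 ∧ ∀ S : Finset (FinitePlace k), ∃ C : ℝ,
        ∀ (x : Fin g → k) (t : Fin R × Fin N → k),
        (∀ P, aeval (Sum.elim y ξ) P = 0 → eval (Sum.elim x t) P = 0) →
        eval (Sum.elim x t) Θ ≠ 0 → (∀ j, eval (Sum.elim x t) (U j) ≠ 0) ∧
        (∀ b, (fun a => t (b, a)) ≠ 0) ∧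
        ∑ j ∈ I, ∑ b, d j b * logHeight (fun a => t (b, a)) +
            e * (logHeight x + ∑ b, logHeight fun a => t (b, a)) ≤
          ∑ j, c j * ∑ᶠ v ∈ (S : Set (FinitePlace k))ᶜ, Real.log
            ((∏ b, (⨆ a, v (t (b, a))) ^ d j b) / v (eval (Sum.elim x t) (U j))) +
            ε * logHeight x + C := by
  classical
  choose r hr using rk_nat (F := F) (ξ := ξ) (d := d)
  obtain ⟨I, i1, i2, i3, i4⟩ := min_set r _ q0 s0 sm (hl.elim (fun h => ⟨Finset.univ, by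
    rw [hr, Nat.cast_le] at h
    simpa using h⟩) fun h => (meet_ex ξ1 hU hh hQ hr).imp fun _ k =>
      k.trans (Nat.add_le_add_right h _)) h1
  obtain ⟨p, e, rfl⟩ : ∃ (p : ℕ) (e : Fin p ↪ Fin q), Finset.univ.map e = I :=
    ⟨_, (I.orderEmbOfFin rfl).toEmbedding, Finset.coe_injective (by simp)⟩
  have e1 : ∀ T, rk F ξ (fun j => d (e j)) T = r (T.map e) := fun T => by
    rw [← hr, rk, rk, rt_map]
  rw [Finset.card_map, Finset.card_univ, Fintype.card_fin] at i2 i3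
  refine ⟨_, i1, fun h => i4 fun T t1 t2 => ?_, fun e' ε he hε => ?_⟩
  · have k := h T t1 (by rw [hr, hr]; exact_mod_cast t2)
    rw [hr, hr] at k
    exact_mod_cast k
  obtain ⟨Θ, c, a1, a2⟩ := main6 k g R N p _ s m J K y ξ D ξ1 F hF hK (fun j => U (e j))
    (fun j => hU _) (fun j => d (e j)) (fun j => hh _) (idx_map hh hP e) (meet_map hh hQ e) s0 sm
    (e1 _)
    (by simpa using i1.card_pos) (i2.imp_right fun h => ⟨h.1, fun j => by
      rw [e1, ← hr, Finset.map_singleton]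
      exact h.2 _⟩) (fun T t1 t2 => by
      rw [e1] at t2 ⊢
      have k := i3 _ (Finset.map_subset_map.2 T.subset_univ) (by simpa using t1)
        (by exact_mod_cast t2)
      rw [Finset.card_map] at k
      exact_mod_cast k) e' ε (by rwa [rt_map]) hε
  refine ⟨Θ * ∏ j, U j, Function.extend e c 0, ?_, fun S => ?_⟩
  · rw [map_mul, map_prod]
    exact mul_ne_zero a1 (Finset.prod_ne_zero_iff.2 fun j _ => hU j)
  obtain ⟨C, hC⟩ := a2 S
  refine ⟨C, fun x t p1 p2 => ?_⟩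
  rw [map_mul, map_prod, mul_ne_zero_iff, Finset.prod_ne_zero_iff] at p2
  obtain ⟨-, b1, b2⟩ := hC x t p1 p2.1
  refine ⟨fun j => p2.2 j (Finset.mem_univ j), b1, ?_⟩
  rw [Finset.sum_map, ← Finset.sum_subset (Finset.univ.map e).subset_univ fun j _ h => by
    rw [Function.extend_apply' _ _ _ (by simpa using h), Pi.zero_apply, Nat.cast_zero, zero_mul],
    Finset.sum_map]
  simpa only [e.injective.extend_apply] using b2

end Pool.Agent.Lib.MP_651af7_nt.Am6
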